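import Pool.Agent.Lib.MP_688fd0_co.TF.H58.Ldf

/-!
# Theorem F: LDF, deterministic part and union bound
-/

namespace Pool.Agent.Lib.MP_688fd0_co.TF.H58

open Pool.Agent.Lib.MP_688fd0_co.TE

universe u v

section inst

variable {G : Type u} [Group G] [Fintype G] [DecidableEq G] {c : Ctx G} {τ : Bool} {d : ℕ}
  {Val : Type v} [Fintype Val] {a : ℕ} {M : LM G Val a} {jm : ℕ}

/-- The good event. -/
structure Good (c : Ctx G) (τ : Bool) (M : LM G Val a) (jm : ℕ) (φ : G → ℝ) (δ : ℝ)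
    (ω : Fld a G Val) : Prop where
  x : ∀ (j j' : ℕ) (u w : G), j ≤ j' → j' ≤ j + 2 → j' ≤ jm → M.sp j → M.sp (j' + 1) →
    ∑ x, φ x * M.lx jm ω x j j' u w ≤ 10 * δ * c.q τ
  y : ∀ (j j' : ℕ) (u w : G), jm ≤ j → j ≤ j' → j' ≤ j + 2 → j' < a → jm < j' →
    (j ≠ jm → M.sp j) → M.sp (j' + 1) → ∑ y, φ y * (FY2 M jm ω y j u *
      M.Gn ω (fun v => M.C a v y) (a - 1 - j') (j' + 1) w) ≤ 10 * δ * c.q τ
  t : ∀ (j : ℕ) (v : G), j < a → M.Top ω j (fun _ => 1) v ≤ c.X * M.H0 / 10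

theorem sp_arith (hI : c.Inst τ d M jm) {j : ℕ} (h : ¬ M.sp j) : M.sp (j + 1) ∧ M.sp (j + 2) ∧
    (1 ≤ j → M.sp (j - 1)) := by
  have hd := hI.d1
  simp only [sp_iff hI, not_not] at h ⊢
  obtain ⟨h1, h2⟩ := h
  have e1 : d * (j + 1) = d * j + d := by ring
  have e2 : d * (j + 2) = d * j + d + d := by ring
  refine ⟨fun h3 => by omega, fun h3 => by omega, fun h0 h3 => ?_⟩
  obtain ⟨i, rfl⟩ : ∃ i, j = i + 1 := ⟨j - 1, by omega⟩
  have e3 : d * (i + 1) = d * i + d := by ring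
  have e4 : i + 1 - 1 = i := by omega
  rw [e4] at h3
  omega

theorem sp_jm (hI : c.Inst τ d M jm) : M.sp (jm + 1) := by
  rw [sp_iff hI]
  rintro ⟨-, h⟩
  rw [hI.mid] at h
  omega

theorem Good.ld (hN : NUMF_S.{u}) (hI : c.Inst τ d M jm) {φ : G → ℝ} {δ : ℝ}
    (hδ : 0 < δ) {ω : Fld a G Val} (h : Good c τ M jm φ δ ω) : M.LD jm c.X (c.q τ) ω φ δ := by
  obtain ⟨hX6, -, -, hk100, -, hq, -⟩ := hN G c
  have hq0 : 0 < c.q τ := hq τ
  have hX0 : 0 < c.X := lt_of_lt_of_le (by norm_num) hX6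
  have hH1 : 1 ≤ M.H0 := M.hH0
  have hH0 : 0 ≤ M.H0 := le_trans zero_le_one M.hH0
  have hB : 0 ≤ 10 * δ * c.q τ := by positivity
  have hBX : M.H0 * (10 * δ * c.q τ) ≤ δ * (c.X * M.H0 * c.q τ) := by
    have : 0 ≤ (c.X - 10) * (M.H0 * δ * c.q τ) := by
      refine mul_nonneg (by linarith) ?_
      positivity
    linarith
  have hBX1 : 10 * δ * c.q τ ≤ δ * (c.X * M.H0 * c.q τ) := by
    refine le_trans ?_ hBX
    exact le_mul_of_one_le_left hB hH1
  have hBT : c.X * M.H0 / 10 * (10 * δ * c.q τ) = δ * (c.X * M.H0 * c.q τ) := by ring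
  have hjma := H17.inst_jm' hI (by omega)
  refine ⟨?_, ?_, ?_⟩
  · intro j j' u w h1 h2 h3
    unfold LM.Eb
    split
    · rename_i hs
      have hs' : M.sp (j' + 1) := by
        rcases hs.2 with h' | h'
        · exact h'
        · rw [h']; exact sp_jm hI
      have := h.x j j' u w h1 (by omega) h3 hs.1 hs'
      linarith
    · rename_i hs
      by_cases hj : M.sp j
      · have hj' : ¬ M.sp (j' + 1) := fun h' => hs ⟨hj, Or.inl h'⟩
        have hne : j' ≠ jm := fun h' => hs ⟨hj, Or.inr h'⟩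
        obtain ⟨n, hn⟩ : ∃ n, jm - j' = n + 1 := ⟨jm - j' - 1, by omega⟩
        have e1 : jm - (j' + 1) = n := by omega
        have h4 : ∀ w', ∑ x, (φ x * M.Fn ω 0 (M.C 0 x) j u) *
            M.Gn ω (M.kb jm x) n (j' + 1 + 1) w' ≤ 10 * δ * c.q τ := by
          intro w'
          have h5 := h.x j (j' + 1) u w' (by omega) (by omega) (by omega) hj
            (sp_arith hI hj').1
          refine le_trans (le_of_eq ?_) h5
          refine Finset.sum_congr rfl fun x _ => ?_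
          unfold LM.lx
          rw [e1]; ring
        have h6 := gop_step M ω (fun x => φ x * M.Fn ω 0 (M.C 0 x) j u)
          (fun x => M.Gn ω (M.kb jm x) n (j' + 1 + 1)) (j' + 1) w hB h4
        refine le_trans (le_of_eq ?_) (h6.trans hBX)
        refine Finset.sum_congr rfl fun x _ => ?_
        unfold LM.lx
        rw [hn, mul_assoc]
        rfl
      · have hj0 : j ≠ 0 := fun h' => hj (h' ▸ M.hsp0)
        have hsj := sp_arith hI hj
        have hj' : M.sp (j' + 1) := by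
          rcases (show j' = j ∨ j' = j + 1 by omega) with rfl | rfl
          · exact hsj.1
          · exact hsj.2.1
        obtain ⟨i, rfl⟩ : ∃ i, j = i + 1 := ⟨j - 1, by omega⟩
        have hi : M.sp i := by simpa using hsj.2.2 (by omega)
        have h4 : ∀ u', ∑ x, (φ x * M.Gn ω (M.kb jm x) (jm - j') (j' + 1) w) *
            M.Fn ω 0 (M.C 0 x) i u' ≤ 10 * δ * c.q τ := by
          intro u'
          have h5 := h.x i j' u' w (by omega) (by omega) h3 hi hj'
          refine le_trans (le_of_eq ?_) h5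
          refine Finset.sum_congr rfl fun x _ => ?_
          unfold LM.lx
          ring
        have h6 := top_step M ω (fun x => φ x * M.Gn ω (M.kb jm x) (jm - j') (j' + 1) w)
          (fun x => M.Fn ω 0 (M.C 0 x) i) (0 + i) u hB h4 (h.t (0 + i) u (by omega))
        rw [hBT] at h6
        refine le_trans (le_of_eq ?_) h6
        refine Finset.sum_congr rfl fun x _ => ?_
        unfold LM.lx
        have e1 : M.Fn ω 0 (M.C 0 x) (i + 1) u = M.Top ω (0 + i) (M.Fn ω 0 (M.C 0 x) i) u := rfl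
        rw [e1]; ring
  · intro j j' u w h0 h1 h2 h3
    have hFY : ∀ (i : ℕ) (y v : G), jm < i → FY2 M jm ω y i v = M.FYm jm ω y i v := by
      intro i y v hi
      unfold FY2
      rw [if_neg (by omega)]
    unfold LM.Eb
    split
    · rename_i hs
      have hs' : M.sp (j' + 1) := by
        rcases hs.2 with h' | h'
        · exact h'
        · omega
      have h5 := h.y j j' u w h0.le h1 (by omega) h3 (by omega) (fun _ => hs.1) hs'
      refine le_trans (le_of_eq ?_) (h5.trans (by linarith))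
      refine Finset.sum_congr rfl fun y _ => ?_
      rw [hFY j y u h0]
      rfl
    · rename_i hs
      by_cases hj : M.sp j
      · have hj' : ¬ M.sp (j' + 1) := fun h' => hs ⟨hj, Or.inl h'⟩
        have hne : j' + 1 ≠ a := fun h' => hj' (h' ▸ M.hspa)
        obtain ⟨n, hn⟩ : ∃ n, a - 1 - j' = n + 1 := ⟨a - 1 - j' - 1, by omega⟩
        have e1 : a - 1 - (j' + 1) = n := by omega
        have h4 : ∀ w', ∑ y, (φ y * M.FYm jm ω y j u) *
            M.Gn ω (fun v => M.C a v y) n (j' + 1 + 1) w' ≤ 10 * δ * c.q τ := by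
          intro w'
          have h5 := h.y j (j' + 1) u w' h0.le (by omega) (by omega) (by omega) (by omega)
            (fun _ => hj) (sp_arith hI hj').1
          refine le_trans (le_of_eq ?_) h5
          refine Finset.sum_congr rfl fun y _ => ?_
          rw [e1, hFY j y u h0]; ring
        have h6 := gop_step M ω (fun y => φ y * M.FYm jm ω y j u)
          (fun y => M.Gn ω (fun v => M.C a v y) n (j' + 1 + 1)) (j' + 1) w hB h4
        refine le_trans (le_of_eq ?_) (h6.trans hBX)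
        refine Finset.sum_congr rfl fun y _ => ?_
        unfold LM.ly
        rw [hn, mul_assoc]
        rfl
      · have hj0 : j ≠ jm + 1 := fun h' => hj (h' ▸ sp_jm hI)
        have hsj := sp_arith hI hj
        have hj' : M.sp (j' + 1) := by
          rcases (show j' = j ∨ j' = j + 1 by omega) with rfl | rfl
          · exact hsj.1
          · exact hsj.2.1
        obtain ⟨i, rfl⟩ : ∃ i, j = i + 1 := ⟨j - 1, by omega⟩
        have hi : M.sp i := by simpa using hsj.2.2 (by omega)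
        have hji : jm < i := by omega
        have h4 : ∀ u', ∑ y, (φ y * M.Gn ω (fun v => M.C a v y) (a - 1 - j') (j' + 1) w) *
            M.FYm jm ω y i u' ≤ 10 * δ * c.q τ := by
          intro u'
          have h5 := h.y i j' u' w hji.le (by omega) (by omega) h3 (by omega) (fun _ => hi) hj'
          refine le_trans (le_of_eq ?_) h5
          refine Finset.sum_congr rfl fun y _ => ?_
          rw [hFY i y u' hji]; ring
        obtain ⟨n, hn⟩ : ∃ n, i - jm - 1 = n := ⟨_, rfl⟩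
        have hn1 : i + 1 - jm - 1 = n + 1 := by omega
        have hn2 : jm + 1 + n = i := by omega
        have h6 := top_step M ω (fun y => φ y * M.Gn ω (fun v => M.C a v y) (a - 1 - j') (j' + 1) w)
          (fun y => M.FYm jm ω y i) (jm + 1 + n) u hB h4 (h.t (jm + 1 + n) u (by omega))
        rw [hBT] at h6
        refine le_trans (le_of_eq ?_) h6
        refine Finset.sum_congr rfl fun y _ => ?_
        have e1 : M.FYm jm ω y (i + 1) u = M.Top ω (jm + 1 + n) (M.FYm jm ω y i) u := by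
          unfold LM.FYm
          rw [hn1, hn]
          rfl
        unfold LM.ly
        rw [e1]; ring
  · intro v w
    have hE : δ * M.Eb jm c.X (c.q τ) jm (jm + 1) = 10 * δ * c.q τ ∨
        δ * M.Eb jm c.X (c.q τ) jm (jm + 1) = δ * (c.X * M.H0 * c.q τ) := by
      unfold LM.Eb
      split
      · left; ring
      · right; rfl
    have hFY : ∀ (y v : G), FY2 M jm ω y jm v = M.kc jm v y := by
      intro y v
      unfold FY2
      rw [if_pos rfl]
    by_cases hs : M.sp (jm + 2)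
    · have h5 := h.y jm (jm + 1) v w le_rfl (by omega) (by omega) (by omega) (by omega)
        (fun h' => absurd rfl h') hs
      have h6 : ∑ y, φ y * M.lz jm ω y v w ≤ 10 * δ * c.q τ := by
        refine le_trans (le_of_eq ?_) h5
        refine Finset.sum_congr rfl fun y _ => ?_
        rw [hFY]
        unfold LM.lz
        have e : a - 1 - (jm + 1) = a - 2 - jm := by omega
        rw [e]
      rcases hE with h' | h' <;> rw [h']
      · exact h6
      · exact h6.trans hBX1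
    · have hE' : δ * M.Eb jm c.X (c.q τ) jm (jm + 1) = δ * (c.X * M.H0 * c.q τ) := by
        unfold LM.Eb
        rw [if_neg]
        rintro ⟨-, h' | h'⟩
        · exact hs h'
        · omega
      rw [hE']
      have hne : jm + 2 ≠ a := fun h' => hs (h' ▸ M.hspa)
      obtain ⟨n, hn⟩ : ∃ n, a - 2 - jm = n + 1 := ⟨a - 3 - jm, by omega⟩
      have h4 : ∀ w', ∑ y, (φ y * M.kc jm v y) *
          M.Gn ω (fun v => M.C a v y) n (jm + 2 + 1) w' ≤ 10 * δ * c.q τ := by
        intro w'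
        have h5 := h.y jm (jm + 2) v w' le_rfl (by omega) (by omega) (by omega) (by omega)
          (fun h' => absurd rfl h') (sp_arith hI hs).1
        refine le_trans (le_of_eq ?_) h5
        refine Finset.sum_congr rfl fun y _ => ?_
        have e : a - 1 - (jm + 2) = n := by omega
        rw [e, hFY]; ring
      have h6 := gop_step M ω (fun y => φ y * M.kc jm v y)
        (fun y => M.Gn ω (fun v => M.C a v y) n (jm + 2 + 1)) (jm + 2) w hB h4
      refine le_trans (le_of_eq ?_) (h6.trans hBX)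
      refine Finset.sum_congr rfl fun y _ => ?_
      unfold LM.lz
      rw [hn, mul_assoc]
      rfl

end inst

theorem ldf (hK : KERF_S.{u}) (hQ : QQF_S.{u}) (hN : NUMF_S.{u}) (hM : MRG_S.{u}) :
    LDF_S.{u, v} := by
  intro G _ _ _ c τ d Val _ a M jm φ δ hI hφ hδ hkp
  obtain ⟨hX6, hkX, -, hk100, -, hq, hb0, hbX, hbn, -⟩ := hN G c
  have hX := num_k hN c
  have hX0 : 0 < c.X := lt_of_lt_of_le one_pos hX.2
  have hδ0 : 0 < δ := lt_of_lt_of_le (by positivity) hδ
  have hn0 : (0 : ℝ) < Fintype.card G := by exact_mod_cast Fintype.card_pos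
  set n : ℝ := (Fintype.card G : ℝ) with hn
  let ι := Fin 3 × Fin (a + 1) × Fin (a + 1) × G × G
  let E : ι → Fld a G Val → Prop := fun i ω =>
    (i.1 = 0 ∧ (i.2.1 : ℕ) ≤ i.2.2.1 ∧ (i.2.2.1 : ℕ) ≤ i.2.1 + 2 ∧ (i.2.2.1 : ℕ) ≤ jm ∧
      M.sp i.2.1 ∧ M.sp (i.2.2.1 + 1) ∧ 10 * δ * c.q τ <
        ∑ x, φ x * M.lx jm ω x i.2.1 i.2.2.1 i.2.2.2.1 i.2.2.2.2) ∨
    (i.1 = 1 ∧ jm ≤ (i.2.1 : ℕ) ∧ (i.2.1 : ℕ) ≤ i.2.2.1 ∧ (i.2.2.1 : ℕ) ≤ i.2.1 + 2 ∧
      (i.2.2.1 : ℕ) < a ∧ jm < (i.2.2.1 : ℕ) ∧ ((i.2.1 : ℕ) ≠ jm → M.sp i.2.1) ∧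
      M.sp (i.2.2.1 + 1) ∧ 10 * δ * c.q τ < ∑ y, φ y * (FY2 M jm ω y i.2.1 i.2.2.2.1 *
      M.Gn ω (fun v => M.C a v y) (a - 1 - i.2.2.1) (i.2.2.1 + 1) i.2.2.2.2)) ∨
    (i.1 = 2 ∧ (i.2.1 : ℕ) < a ∧ c.X * M.H0 / 10 < M.Top ω i.2.1 (fun _ => 1) i.2.2.2.1)
  have hE : ∀ i, Pr M.law (E i) ≤ 1 / n ^ 20 := by
    have hbas := Pool.Agent.Lib.MP_688fd0_co.TE.H17.basic.{max u v, u} (Fld a G Val) M.law
      (H17.law_pr M)
    have hmono := hbas.1
    have hz : ∀ P : Fld a G Val → Prop, (∀ ω, ¬ P ω) → Pr M.law P ≤ 1 / n ^ 20 := by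
      intro P hP
      have : Pr M.law P = 0 := by
        unfold Pr
        exact Finset.sum_eq_zero fun ω _ => by rw [ind_not (hP ω), mul_zero]
      rw [this]
      positivity
    have f01 : ¬ ((0 : Fin 3) = 1) := by decide
    have f02 : ¬ ((0 : Fin 3) = 2) := by decide
    have f10 : ¬ ((1 : Fin 3) = 0) := by decide
    have f12 : ¬ ((1 : Fin 3) = 2) := by decide
    have f20 : ¬ ((2 : Fin 3) = 0) := by decide
    have f21 : ¬ ((2 : Fin 3) = 1) := by decide
    rintro ⟨i, j, j', u, w⟩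
    rcases (show i = 0 ∨ i = 1 ∨ i = 2 by fin_cases i <;> simp) with rfl | rfl | rfl
    · by_cases hc : ((j : ℕ) ≤ j' ∧ (j' : ℕ) ≤ j + 2 ∧ (j' : ℕ) ≤ jm ∧
        M.sp j ∧ M.sp (j' + 1))
      · obtain ⟨h1, h2, h3, h4, h5⟩ := hc
        refine (hmono _ _ ?_).trans (X_tail hK hQ hN hM hI hφ hδ hkp h1 h2 h3 h4 h5 u w)
        rintro ω (⟨-, -, -, -, -, -, h⟩ | ⟨h, -⟩ | ⟨h, -⟩)
        · exact h
        · exact absurd h f01
        · exact absurd h f02
      · refine hz _ ?_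
        rintro ω (⟨-, h1, h2, h3, h4, h5, -⟩ | ⟨h, -⟩ | ⟨h, -⟩)
        · exact hc ⟨h1, h2, h3, h4, h5⟩
        · exact absurd h f01
        · exact absurd h f02
    · by_cases hc : (jm ≤ (j : ℕ) ∧ (j : ℕ) ≤ j' ∧ (j' : ℕ) ≤ j + 2 ∧ (j' : ℕ) < a ∧
        jm < (j' : ℕ) ∧ ((j : ℕ) ≠ jm → M.sp j) ∧ M.sp (j' + 1))
      · obtain ⟨h0, h1, h2, h3, h4, h5, h6⟩ := hc
        refine (hmono _ _ ?_).trans (Y_tail hK hQ hN hM hI hφ hδ hkp h0 h1 h2 h3 h4 h5 h6 u w)
        rintro ω (⟨h, -⟩ | ⟨-, -, -, -, -, -, -, -, h⟩ | ⟨h, -⟩)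
        · exact absurd h f10
        · exact h
        · exact absurd h f12
      · refine hz _ ?_
        rintro ω (⟨h, -⟩ | ⟨-, h0, h1, h2, h3, h4, h5, h6, -⟩ | ⟨h, -⟩)
        · exact absurd h f10
        · exact hc ⟨h0, h1, h2, h3, h4, h5, h6⟩
        · exact absurd h f12
    · by_cases hc : (j : ℕ) < a
      · refine (hmono _ _ ?_).trans (T_tail hN hI hc u)
        rintro ω (⟨h, -⟩ | ⟨h, -⟩ | ⟨-, -, h⟩)
        · exact absurd h f20
        · exact absurd h f21
        · exact h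
      · refine hz _ ?_
        rintro ω (⟨h, -⟩ | ⟨h, -⟩ | ⟨-, h, -⟩)
        · exact absurd h f20
        · exact absurd h f21
        · exact hc h
  have hbas := Pool.Agent.Lib.MP_688fd0_co.TE.H17.basic.{max u v, u} (Fld a G Val) M.law
    (H17.law_pr M)
  have hU : Pr M.law (fun ω => ¬ M.LD jm c.X (c.q τ) ω φ δ) ≤
      Pr M.law (fun ω => ∃ i : ι, E i ω) := by
    refine hbas.1 _ _ ?_
    intro ω hω
    by_contra hne
    apply hω
    refine Good.ld hN hI hδ0 ⟨?_, ?_, ?_⟩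
    · intro j j' u w h1 h2 h3 h4 h5
      by_contra hlt
      have hjm := H17.inst_jm hI
      exact hne ⟨(0, ⟨j, by omega⟩, ⟨j', by omega⟩, u, w),
        Or.inl ⟨rfl, h1, h2, h3, h4, h5, not_le.1 hlt⟩⟩
    · intro j j' u w h0 h1 h2 h3 h4 h5 h6
      by_contra hlt
      exact hne ⟨(1, ⟨j, by omega⟩, ⟨j', by omega⟩, u, w),
        Or.inr (Or.inl ⟨rfl, h0, h1, h2, h3, h4, h5, h6, not_le.1 hlt⟩)⟩
    · intro j v h1
      by_contra hlt
      exact hne ⟨(2, ⟨j, by omega⟩, ⟨j, by omega⟩, v, v),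
        Or.inr (Or.inr ⟨rfl, h1, not_le.1 hlt⟩)⟩
  refine (hU.trans (hbas.2.1 ι E)).trans ?_
  have hcard : (Fintype.card ι : ℝ) = 3 * ((a : ℝ) + 1) ^ 2 * n ^ 2 := by
    have : Fintype.card ι = 3 * ((a + 1) * ((a + 1) * (Fintype.card G * Fintype.card G))) := by
      show Fintype.card (Fin 3 × Fin (a + 1) × Fin (a + 1) × G × G) = _
      simp only [Fintype.card_prod, Fintype.card_fin]
    rw [this]
    push_cast
    ring
  have ha : (a : ℝ) + 1 ≤ 6 * c.k + 3 := by
    have h1 := hI.len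
    have h2 := hI.d1
    have : a + 1 ≤ 6 * c.k + 3 := by rcases h2 with rfl | rfl <;> omega
    exact_mod_cast this
  have hk1 : (100 : ℝ) ≤ c.k := by exact_mod_cast hk100
  have hXn : c.X ≤ n := by
    refine le_trans ?_ (hbX.trans hbn)
    exact le_self_pow₀ hX.2 (by norm_num)
  have han : 3 * ((a : ℝ) + 1) ^ 2 ≤ n := by
    have ha0 : (0 : ℝ) ≤ (a : ℝ) + 1 := by positivity
    have h1 : ((a : ℝ) + 1) ^ 2 ≤ (6 * c.k + 3) ^ 2 := pow_le_pow_left₀ ha0 ha 2
    refine le_trans ?_ (hX.1.trans hXn)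
    nlinarith
  have hn1 : 1 ≤ n := hX.2.trans hXn
  calc ∑ i, Pr M.law (E i) ≤ ∑ _i : ι, 1 / n ^ 20 := Finset.sum_le_sum fun i _ => hE i
    _ = (3 * ((a : ℝ) + 1) ^ 2 * n ^ 2) * (1 / n ^ 20) := by
        rw [Finset.sum_const, Finset.card_univ, nsmul_eq_mul, hcard]
    _ ≤ (n * n ^ 2) * (1 / n ^ 20) := by
        refine mul_le_mul_of_nonneg_right ?_ (by positivity)
        exact mul_le_mul_of_nonneg_right han (by positivity)
    _ = n ^ 3 / n ^ 20 := by ring
    _ ≤ 1 / n ^ 14 := by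
        rw [div_le_div_iff₀ (by positivity) (by positivity), one_mul, ← pow_add]
        exact pow_le_pow_right₀ hn1 (by norm_num)

end Pool.Agent.Lib.MP_688fd0_co.TF.H58
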