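import Pool.Agent.Lib.MP_688fd0_co.TF.Iface2

/-!
# Theorem F: module NUMF
-/

namespace Pool.Agent.Lib.MP_688fd0_co.TF.H58

open Pool.Agent.Lib.MP_688fd0_co.TE
open Pool.Agent.Lib.MP_688fd0_co.TF

universe u v

section

variable {G : Type u} [Group G] [Fintype G] [DecidableEq G]

theorem DS_WM (h : MAT_S.{u}) (B C : Finset G) (hSB : Sy B) (hSC : Sy C) (τ : Bool) :
    DS (WM B C τ) := by
  obtain ⟨h1, -⟩ := h G
  have hB := (h1 B hSB).1
  have hC := (h1 C hSC).1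
  unfold WM
  cases τ
  · simpa using hB
  · simp only [if_true]
    refine ⟨fun x y => ?_, fun x => ?_, fun y => ?_⟩
    · simp only [Matrix.smul_apply, Matrix.add_apply, smul_eq_mul]
      have := hB.nn x y
      have := hC.nn x y
      positivity
    · simp only [Matrix.smul_apply, Matrix.add_apply, smul_eq_mul]
      rw [← Finset.mul_sum, Finset.sum_add_distrib, hB.row, hC.row]
      norm_num
    · simp only [Matrix.smul_apply, Matrix.add_apply, smul_eq_mul]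
      rw [← Finset.mul_sum, Finset.sum_add_distrib, hB.col, hC.col]
      norm_num

theorem DS_one : DS (1 : Matrix G G ℝ) := by
  refine ⟨fun x y => ?_, fun x => ?_, fun y => ?_⟩
  · rw [Matrix.one_apply]; split <;> norm_num
  · simp [Matrix.one_apply]
  · simp [Matrix.one_apply]

theorem DS_pow (h : MAT_S.{u}) {M : Matrix G G ℝ} (hM : DS M) (n : ℕ) : DS (M ^ n) := by
  induction n with
  | zero => rw [pow_zero]; exact DS_one
  | succ n ih => rw [pow_succ]; exact (h G).2.1 _ _ ih hM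

variable (c : Ctx G)

theorem X_big (N : ℝ) (h0 : 0 ≤ N)
    (hN : N ≤ ((10 ^ 6 * c.T * c.k * (c.r0 + 1) : ℕ) : ℝ)) : N ^ 200 ≤ c.X :=
  le_trans (pow_le_pow_left₀ h0 hN 200) c.hX

/-- NUMF. -/
theorem numf (h : MAT_S.{u}) : NUMF_S.{u} := by
  intro G _ _ _ c
  have hT1 := c.hT1
  have hr1 := c.hr1
  have hn : (0 : ℝ) < Fintype.card G := by exact_mod_cast Fintype.card_pos
  have hn1 : (1 : ℝ) ≤ Fintype.card G := by exact_mod_cast Fintype.card_pos
  have hlog : 0 ≤ Real.log (Fintype.card G) := Real.log_nonneg hn1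
  have hkr := c.hkr
  have hr1R : (2 : ℝ) ≤ c.r0 := by exact_mod_cast hr1
  have hsq : (9 : ℝ) ≤ ((c.r0 : ℝ) + 1) ^ 2 := by nlinarith
  have hk2 : 900 * (Real.log (Fintype.card G) + 1) ≤ c.k := by
    refine le_trans ?_ hkr
    have : 900 * (Real.log (Fintype.card G) + 1) = 100 * 9 * (Real.log (Fintype.card G) + 1) := by
      ring
    rw [this]
    gcongr
  have hk900 : (900 : ℝ) ≤ c.k := by nlinarith
  have hk100 : 100 ≤ c.k := by
    have : (100 : ℝ) ≤ c.k := by linarith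
    exact_mod_cast this
  have hlk : Real.log (Fintype.card G) ≤ c.k := by nlinarith
  have e1 : 10 ^ 6 * c.k ≤ 10 ^ 6 * c.T * c.k * (c.r0 + 1) := by
    calc 10 ^ 6 * c.k = 10 ^ 6 * 1 * c.k * 1 := by ring
      _ ≤ 10 ^ 6 * c.T * c.k * (c.r0 + 1) := by gcongr; omega
  have e2 : 10 ^ 6 * c.T ≤ 10 ^ 6 * c.T * c.k * (c.r0 + 1) := by
    have hk1 : 1 ≤ c.k := by omega
    calc 10 ^ 6 * c.T = 10 ^ 6 * c.T * 1 * 1 := by ring
      _ ≤ 10 ^ 6 * c.T * c.k * (c.r0 + 1) := by gcongr; omega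
  have x1 : (10 ^ 6 * c.k : ℝ) ^ 200 ≤ c.X :=
    X_big c (10 ^ 6 * c.k) (by positivity) (by exact_mod_cast e1)
  have x2 : (10 ^ 6 * c.T : ℝ) ^ 200 ≤ c.X :=
    X_big c (10 ^ 6 * c.T) (by positivity) (by exact_mod_cast e2)
  have hkR : (1 : ℝ) ≤ c.k := by linarith
  have x3 : (10 ^ 6 * c.k : ℝ) ≤ c.X := by
    refine le_trans ?_ x1
    have : (1 : ℝ) ≤ 10 ^ 6 * c.k := by nlinarith
    exact le_self_pow₀ this (by norm_num)
  have x0 : (10 ^ 6 : ℝ) ≤ c.X := by nlinarith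
  have hX0 : (0 : ℝ) ≤ c.X := le_trans (by norm_num) x0
  have hbN : 0 < c.B.card := Finset.card_pos.2 c.hB.ne
  have hb : 0 < c.b := by unfold Ctx.b; exact_mod_cast hbN
  have hb1 : 0 < c.b1 := by unfold Ctx.b1; exact Real.rpow_pos_of_pos hb _
  have hb14 : c.b1 ^ 4 = c.b := by
    unfold Ctx.b1
    rw [← Real.rpow_natCast, ← Real.rpow_mul hb.le]
    norm_num
  refine ⟨x0, x1, x2, hk100, hlk, ?_, hb, c.hBX, ?_, hb1, ?_, hb14, ?_, c.hT, ?_, c.hCgen⟩
  · intro τ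
    exact lt_of_lt_of_le (by positivity) (c.hq τ)
  · unfold Ctx.b
    exact_mod_cast Finset.card_le_univ _
  · have h1 : (c.X ^ 50000) ^ 4 ≤ c.b1 ^ 4 := by
      rw [hb14, ← pow_mul]
      exact c.hBX
    exact le_of_pow_le_pow_left₀ (by norm_num) hb1.le h1
  · intro τ
    unfold Ctx.q qf
    obtain ⟨h1, h2, -, -, -, -, h7, h8⟩ := h G
    have hB := (h1 c.B c.hB).1
    have hS : DS (SM c.B c.C τ) := h2 _ _ (h2 _ _ hB (DS_WM h c.B c.C c.hB c.hC τ)) hB
    have h9 : (SM c.B c.C τ ^ (2 * c.k)) 1 1 ≤ 1 / (c.B.card : ℝ) := by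
      rw [show 2 * c.k = (2 * c.k - 1) + 1 by omega, pow_succ]
      unfold SM
      rw [← Matrix.mul_assoc]
      refine (h7 _ _ _ ?_ (h8 c.B c.hB) 1 1).1
      exact h2 _ _ (DS_pow h hS _) (h2 _ _ hB (DS_WM h c.B c.C c.hB c.hC τ))
    exact h9
  · intro m hm
    rw [← Real.exp_log hn, ← Real.exp_nat_mul, ← Real.exp_add]
    rw [Real.exp_le_one_iff]
    push_cast
    nlinarith

end

end Pool.Agent.Lib.MP_688fd0_co.TF.H58
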