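import Pool.Agent.Lib.MP_688fd0_co.TF.Compat

/-!
# Theorem F, module PSI: the claim of 5.5
-/

namespace Pool.Agent.Lib.MP_688fd0_co.TF

open Pool.Agent.Lib.MP_688fd0_co.TE

namespace H58

universe u

variable {G : Type u} [Group G] [Fintype G] [DecidableEq G]

theorem ctx_X_big (c : Ctx G) : (10 : ℝ) ^ 6 ≤ c.X := by
  have h1 : (1 : ℝ) ≤ ((10 ^ 6 * c.T * c.k * (c.r0 + 1) : ℕ) : ℝ) := by
    have : 1 ≤ 10 ^ 6 * c.T * c.k * (c.r0 + 1) := by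
      have := c.hT1
      have := c.hk1
      exact Nat.one_le_iff_ne_zero.2 (by positivity)
    exact_mod_cast this
  have h2 : (10 : ℝ) ^ 6 ≤ ((10 ^ 6 * c.T * c.k * (c.r0 + 1) : ℕ) : ℝ) := by
    have : 10 ^ 6 ≤ 10 ^ 6 * c.T * c.k * (c.r0 + 1) := by
      have h3 : 1 ≤ c.T * c.k * (c.r0 + 1) := by
        have := c.hT1
        have := c.hk1
        exact Nat.one_le_iff_ne_zero.2 (by positivity)
      calc 10 ^ 6 = 10 ^ 6 * 1 := by norm_num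
        _ ≤ 10 ^ 6 * (c.T * c.k * (c.r0 + 1)) := Nat.mul_le_mul_left _ h3
        _ = 10 ^ 6 * c.T * c.k * (c.r0 + 1) := by ring
    exact_mod_cast this
  have h3 : ((10 ^ 6 * c.T * c.k * (c.r0 + 1) : ℕ) : ℝ) ≤
      ((10 ^ 6 * c.T * c.k * (c.r0 + 1) : ℕ) : ℝ) ^ 200 := le_self_pow₀ h1 (by norm_num)
  exact h2.trans (h3.trans c.hX)

theorem bb_nonneg {c : Ctx G} {N : ℕ} (g : Gad c N) {m : ℕ} [NeZero m] (lv : G → ZMod m)
    (u v : G → ℝ) : 0 ≤ g.bb lv u v := by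
  have hX : (0 : ℝ) ≤ c.X := le_trans (by norm_num) (ctx_X_big c)
  have haB : ∀ x y, 0 ≤ g.aB lv x y := fun x y => by
    unfold Gad.aB
    exact mul_nonneg (div_nonneg (Nat.cast_nonneg _)
      (mul_nonneg (by norm_num) (by unfold Ctx.b; exact Nat.cast_nonneg _))) (ind_nonneg _)
  have haC : ∀ x y, 0 ≤ g.aC lv x y := fun x y => by
    unfold Gad.aC
    exact mul_nonneg (div_nonneg (div_nonneg zero_le_one (pow_nonneg hX _)) (Nat.cast_nonneg _))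
      (ind_nonneg _)
  unfold Gad.bb Gad.bc Gad.b2
  refine Finset.sum_nonneg fun i _ => add_nonneg ?_ ?_
  · exact Finset.sum_nonneg fun x _ => Finset.sum_nonneg fun y _ =>
      mul_nonneg (mul_nonneg (ind_nonneg _) (add_nonneg (haB x y) (haC x y))) (abs_nonneg _)
  · exact Finset.sum_nonneg fun x _ => Finset.sum_nonneg fun y _ =>
      mul_nonneg (mul_nonneg (ind_nonneg _) (haB x y)) (abs_nonneg _)

/-- The numerical estimate. -/
theorem num_est {X b m β : ℝ} (hX : (10 : ℝ) ^ 6 ≤ X) (hb : X ^ 200000 ≤ b) (hm0 : 0 ≤ m)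
    (hm : m ≤ 2 * X ^ 1000) (hβ : 0 ≤ β) :
    1 / X ^ 50 * β +
      ((1 / X ^ 300 * (X ^ 24 * β) + 1 / X ^ 2400 * (X ^ 134 * m ^ 2 * β)) +
       (1 / X ^ 80 * (X ^ 24 * β) + 1 / b ^ (1 / 10 : ℝ) * (X ^ 134 * m ^ 2 * β))) ≤ β / 2 := by
  have hX0 : 0 < X := lt_of_lt_of_le (by norm_num) hX
  have hX1 : 1 ≤ X := le_trans (by norm_num) hX
  have hXn : ∀ n, 0 < X ^ n := fun n => pow_pos hX0 n
  have hpow : ∀ n : ℕ, 1 ≤ n → 1 / X ^ n ≤ 1 / 10 ^ 6 := fun n hn => by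
    have : (10 : ℝ) ^ 6 ≤ X ^ n := hX.trans (le_self_pow₀ hX1 (by omega))
    exact one_div_le_one_div_of_le (by norm_num) this
  have hm2 : m ^ 2 ≤ 4 * X ^ 2000 := by
    have h1 : m ^ 2 ≤ (2 * X ^ 1000) ^ 2 := pow_le_pow_left₀ hm0 hm 2
    have h2 : (2 * X ^ 1000) ^ 2 = 4 * X ^ 2000 := by
      rw [mul_pow, ← pow_mul]; norm_num
    linarith
  have hbr : X ^ 20000 ≤ b ^ (1 / 10 : ℝ) := by
    have h1 : (X ^ 200000) ^ (1 / 10 : ℝ) ≤ b ^ (1 / 10 : ℝ) :=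
      Real.rpow_le_rpow (hXn _).le hb (by norm_num)
    have h2 : (X ^ 200000) ^ (1 / 10 : ℝ) = X ^ 20000 := by
      rw [← Real.rpow_natCast X 200000, ← Real.rpow_mul hX0.le, ← Real.rpow_natCast X 20000]
      norm_num
    linarith
  have e1 : 1 / X ^ 50 * β ≤ 1 / 10 ^ 6 * β := mul_le_mul_of_nonneg_right (hpow 50 (by norm_num)) hβ
  have e2 : 1 / X ^ 300 * (X ^ 24 * β) ≤ 1 / 10 ^ 6 * β := by
    have : 1 / X ^ 300 * (X ^ 24 * β) = 1 / X ^ 276 * β := by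
      have h : X ^ 300 = X ^ 276 * X ^ 24 := by rw [← pow_add]
      rw [h]; field_simp
    rw [this]; exact mul_le_mul_of_nonneg_right (hpow 276 (by norm_num)) hβ
  have e4 : 1 / X ^ 80 * (X ^ 24 * β) ≤ 1 / 10 ^ 6 * β := by
    have : 1 / X ^ 80 * (X ^ 24 * β) = 1 / X ^ 56 * β := by
      have h : X ^ 80 = X ^ 56 * X ^ 24 := by rw [← pow_add]
      rw [h]; field_simp
    rw [this]; exact mul_le_mul_of_nonneg_right (hpow 56 (by norm_num)) hβ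
  have hM : X ^ 134 * m ^ 2 * β ≤ 4 * X ^ 2134 * β := by
    have h1 : X ^ 134 * m ^ 2 ≤ X ^ 134 * (4 * X ^ 2000) :=
      mul_le_mul_of_nonneg_left hm2 (hXn _).le
    have h2 : X ^ 134 * (4 * X ^ 2000) = 4 * X ^ 2134 := by
      have h : X ^ 2134 = X ^ 134 * X ^ 2000 := by rw [← pow_add]
      rw [h]; ring
    exact mul_le_mul_of_nonneg_right (h1.trans h2.le) hβ
  have hM0 : 0 ≤ X ^ 134 * m ^ 2 * β := by positivity
  have e3 : 1 / X ^ 2400 * (X ^ 134 * m ^ 2 * β) ≤ 4 / 10 ^ 6 * β := by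
    calc 1 / X ^ 2400 * (X ^ 134 * m ^ 2 * β) ≤ 1 / X ^ 2400 * (4 * X ^ 2134 * β) :=
          mul_le_mul_of_nonneg_left hM (by positivity)
      _ = 4 * (1 / X ^ 266 * β) := by
          have h : X ^ 2400 = X ^ 266 * X ^ 2134 := by rw [← pow_add]
          rw [h]; field_simp
      _ ≤ 4 * (1 / 10 ^ 6 * β) :=
          mul_le_mul_of_nonneg_left (mul_le_mul_of_nonneg_right (hpow 266 (by norm_num)) hβ)
            (by norm_num)
      _ = 4 / 10 ^ 6 * β := by ring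
  have e5 : 1 / b ^ (1 / 10 : ℝ) * (X ^ 134 * m ^ 2 * β) ≤ 4 / 10 ^ 6 * β := by
    calc 1 / b ^ (1 / 10 : ℝ) * (X ^ 134 * m ^ 2 * β) ≤
          1 / X ^ 20000 * (X ^ 134 * m ^ 2 * β) :=
          mul_le_mul_of_nonneg_right (one_div_le_one_div_of_le (hXn _) hbr) hM0
      _ ≤ 1 / X ^ 20000 * (4 * X ^ 2134 * β) :=
          mul_le_mul_of_nonneg_left hM (by positivity)
      _ = 4 * (1 / X ^ 17866 * β) := by
          have h : X ^ 20000 = X ^ 17866 * X ^ 2134 := by rw [← pow_add]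
          rw [h]; field_simp
      _ ≤ 4 * (1 / 10 ^ 6 * β) :=
          mul_le_mul_of_nonneg_left (mul_le_mul_of_nonneg_right (hpow 17866 (by norm_num)) hβ)
            (by norm_num)
      _ = 4 / 10 ^ 6 * β := by ring
  have : 1 / X ^ 50 * β +
      ((1 / X ^ 300 * (X ^ 24 * β) + 1 / X ^ 2400 * (X ^ 134 * m ^ 2 * β)) +
       (1 / X ^ 80 * (X ^ 24 * β) + 1 / b ^ (1 / 10 : ℝ) * (X ^ 134 * m ^ 2 * β))) ≤
      1 / 10 ^ 6 * β + ((1 / 10 ^ 6 * β + 4 / 10 ^ 6 * β) + (1 / 10 ^ 6 * β + 4 / 10 ^ 6 * β)) :=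
    add_le_add e1 (add_le_add (add_le_add e2 e3) (add_le_add e4 e5))
  refine this.trans ?_
  linarith

/-- PSI. -/
theorem psi (hHub : HUBF_S.{u}) (hPsi1 : PSI1F_S.{u}) (hCen : CENF_S.{u}) (hBrk : BRKF_S.{u}) :
    PSIF_S.{u} := by
  intro G _ _ _ c N g m _ lv hN hm hL u v
  have hH := hHub G c N g m lv hm hL u v
  have hβ := bb_nonneg g lv u v
  have hX : (10 : ℝ) ^ 6 ≤ c.X := ctx_X_big c
  have hX0 : (0 : ℝ) ≤ c.X := le_trans (by norm_num) hX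
  have h1 := hPsi1 G c N g m lv hm hL u v hH
  have hb0 : 0 ≤ c.X ^ 24 * g.bb lv u v := mul_nonneg (pow_nonneg hX0 _) hβ
  have hb1 : 0 ≤ c.X ^ 134 * (m : ℝ) ^ 2 * g.bb lv u v :=
    mul_nonneg (mul_nonneg (pow_nonneg hX0 _) (sq_nonneg _)) hβ
  have h2 := hCen G c N g m lv (g.Um lv u) (g.Vm lv v) _ _ hb0 hb1 hL.e5 hH.h3 hH.h4
  have h3 := hBrk G c N g m lv (g.Um lv u) (g.Vm lv v) _ _ hN hm hb0 hb1 hH.h3 hH.h4
  have h4 := num_est hX c.hBX (Nat.cast_nonneg m) hm.2 hβ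
  refine le_trans ?_ h4
  set E := g.E3 lv (c.av (g.Um lv u)) (c.av (g.Vm lv v))
  set S := ∑ x, ∑ y, (g.aB lv x y - g.mB x y + (g.aC lv x y - g.mC m x y)) *
      (c.av (g.Um lv u) x - c.av (g.Vm lv v) y)
  have h5 : |g.Psi lv u v| ≤ |g.Psi lv u v - E| + (|E + S| + |S|) := by
    have : g.Psi lv u v = (g.Psi lv u v - E) + ((E + S) + (-S)) := by ring
    calc |g.Psi lv u v| = |(g.Psi lv u v - E) + ((E + S) + (-S))| := by rw [← this]
      _ ≤ |g.Psi lv u v - E| + |(E + S) + (-S)| := abs_add_le _ _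
      _ ≤ |g.Psi lv u v - E| + (|E + S| + |-S|) := by
          have := abs_add_le (E + S) (-S)
          linarith
      _ = |g.Psi lv u v - E| + (|E + S| + |S|) := by rw [abs_neg]
  refine h5.trans (add_le_add h1 (add_le_add h3 ?_))
  exact h2

end H58

end Pool.Agent.Lib.MP_688fd0_co.TF
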