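import Pool.Agent.Lib.MP_688fd0_co.TF.H58.SeqD

/-!
# Theorem F: the weighted loads (LDF)
-/

namespace Pool.Agent.Lib.MP_688fd0_co.TF.H58

open Pool.Agent.Lib.MP_688fd0_co.TE

universe u v

section TTleft

variable {V : Type u} [Fintype V] [DecidableEq V]

theorem TT_left (C A : ℕ → Matrix V V ℝ) (P : Matrix V V ℝ) (m : ℕ) :
    TT (fun t => if t = 0 then P * C 0 else C t) A 0 m = P * TT C A 0 m := by
  cases m with
  | zero => rw [TT_zero, TT_zero, if_pos rfl]
  | succ m =>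
    rw [TT_succ, TT_succ, if_pos rfl]
    have h1 : TT (fun t => if t = 0 then P * C 0 else C t) A (0 + 1) m = TT C A (0 + 1) m :=
      TT_congr m (0 + 1) (fun t h _ => if_neg (by omega)) (fun t _ _ => rfl)
    rw [h1]
    simp only [Matrix.mul_assoc]

end TTleft

section model

variable {V : Type u} {Val : Type v} [Fintype V] [Fintype Val] [DecidableEq V] {a : ℕ}

theorem lw_nn (M : LM V Val a) (ω : Fld a V Val) (j : ℕ) (u : V) (e : Val) :
    0 ≤ M.lw ω j u e :=
  mul_nonneg (M.hk0 _ _ _) (div_nonneg (ind_nonneg _) (M.hP0 _ _))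

theorem lw_le (M : LM V Val a) (ω : Fld a V Val) (j : ℕ) (u : V) (e : Val) :
    M.lw ω j u e ≤ M.H0 * ind (val ω j u = some e) := by
  unfold LM.lw
  have hH0 : 0 ≤ M.H0 := le_trans zero_le_one M.hH0
  rcases (M.hP0 u e).eq_or_lt with h | h
  · rw [← h, div_zero, mul_zero]
    exact mul_nonneg hH0 (ind_nonneg _)
  · calc M.kap j u e * (ind (val ω j u = some e) / M.P u e)
        ≤ (M.H0 * M.P u e) * (ind (val ω j u = some e) / M.P u e) :=
          mul_le_mul_of_nonneg_right (M.hkH _ _ _) (div_nonneg (ind_nonneg _) h.le)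
      _ = _ := by field_simp

theorem sum_lw_le (M : LM V Val a) (ω : Fld a V Val) (j : ℕ) (u : V) :
    ∑ e, M.lw ω j u e ≤ M.H0 := by
  have hH0 : 0 ≤ M.H0 := le_trans zero_le_one M.hH0
  have h1 : ∑ e, ind (val ω j u = some e) ≤ 1 := by
    cases hv : val ω j u with
    | none =>
      refine le_trans (le_of_eq (Finset.sum_eq_zero fun e _ => ?_)) zero_le_one
      exact ind_not (by simp)
    | some e0 =>
      classical
      refine le_of_eq ?_
      rw [Finset.sum_eq_single e0]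
      · exact ind_of rfl
      · intro e _ he
        exact ind_not (fun h => he (Option.some.inj h).symm)
      · intro h; exact absurd (Finset.mem_univ _) h
  calc ∑ e, M.lw ω j u e ≤ ∑ e, M.H0 * ind (val ω j u = some e) :=
        Finset.sum_le_sum fun e _ => lw_le M ω j u e
    _ = M.H0 * ∑ e, ind (val ω j u = some e) := by rw [Finset.mul_sum]
    _ ≤ M.H0 * 1 := mul_le_mul_of_nonneg_left h1 hH0
    _ = M.H0 := mul_one _

/-- One more slot at the exit side. -/
theorem gop_step (M : LM V Val a) (ω : Fld a V Val) (f : V → ℝ) (F : V → V → ℝ) (j : ℕ) (w : V)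
    {B : ℝ} (hB : 0 ≤ B) (h : ∀ w', ∑ x, f x * F x w' ≤ B) :
    ∑ x, f x * M.Gop ω j (F x) w ≤ M.H0 * B := by
  have h1 : ∑ x, f x * M.Gop ω j (F x) w =
      ∑ u, ∑ e, (M.C j w u * M.lw ω j u e) * ∑ x, f x * F x (M.ex u e) := by
    unfold LM.Gop
    simp only [Finset.mul_sum]
    rw [Finset.sum_comm]
    refine Finset.sum_congr rfl fun u _ => ?_
    rw [Finset.sum_comm]
    refine Finset.sum_congr rfl fun e _ => Finset.sum_congr rfl fun x _ => ?_
    ring
  rw [h1]
  have hH0 : 0 ≤ M.H0 := le_trans zero_le_one M.hH0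
  calc ∑ u, ∑ e, (M.C j w u * M.lw ω j u e) * ∑ x, f x * F x (M.ex u e)
      ≤ ∑ u, ∑ e, (M.C j w u * M.lw ω j u e) * B :=
        Finset.sum_le_sum fun u _ => Finset.sum_le_sum fun e _ =>
          mul_le_mul_of_nonneg_left (h _) (mul_nonneg (M.hC0 _ _ _) (lw_nn _ _ _ _ _))
    _ = (∑ u, M.C j w u * ∑ e, M.lw ω j u e) * B := by
        rw [Finset.sum_mul]
        refine Finset.sum_congr rfl fun u _ => ?_
        rw [Finset.mul_sum, Finset.sum_mul]
    _ ≤ (∑ u, M.C j w u * M.H0) * B := by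
        refine mul_le_mul_of_nonneg_right ?_ hB
        exact Finset.sum_le_sum fun u _ => mul_le_mul_of_nonneg_left (sum_lw_le _ _ _ _)
          (M.hC0 _ _ _)
    _ = (∑ u, M.C j w u) * (M.H0 * B) := by rw [← Finset.sum_mul]; ring
    _ ≤ 1 * (M.H0 * B) := mul_le_mul_of_nonneg_right (M.hCr _ _) (mul_nonneg hH0 hB)
    _ = _ := one_mul _

/-- One more slot at the entry side. -/
theorem top_step (M : LM V Val a) (ω : Fld a V Val) (f : V → ℝ) (F : V → V → ℝ) (j : ℕ) (v : V)
    {B T : ℝ} (hB : 0 ≤ B) (h : ∀ u, ∑ x, f x * F x u ≤ B)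
    (hT : M.Top ω j (fun _ => 1) v ≤ T) :
    ∑ x, f x * M.Top ω j (F x) v ≤ T * B := by
  have h1 : ∑ x, f x * M.Top ω j (F x) v =
      ∑ u, ∑ e, (M.lw ω j u e * M.C (j + 1) (M.ex u e) v) * ∑ x, f x * F x u := by
    unfold LM.Top
    simp only [Finset.mul_sum]
    rw [Finset.sum_comm]
    refine Finset.sum_congr rfl fun u _ => ?_
    rw [Finset.sum_comm]
    refine Finset.sum_congr rfl fun e _ => Finset.sum_congr rfl fun x _ => ?_
    ring
  rw [h1]
  calc ∑ u, ∑ e, (M.lw ω j u e * M.C (j + 1) (M.ex u e) v) * ∑ x, f x * F x u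
      ≤ ∑ u, ∑ e, (M.lw ω j u e * M.C (j + 1) (M.ex u e) v) * B :=
        Finset.sum_le_sum fun u _ => Finset.sum_le_sum fun e _ =>
          mul_le_mul_of_nonneg_left (h _) (mul_nonneg (lw_nn _ _ _ _ _) (M.hC0 _ _ _))
    _ = M.Top ω j (fun _ => 1) v * B := by
        unfold LM.Top
        rw [Finset.sum_mul]
        refine Finset.sum_congr rfl fun u _ => ?_
        rw [Finset.sum_mul]
        refine Finset.sum_congr rfl fun e _ => ?_
        ring
    _ ≤ _ := mul_le_mul_of_nonneg_right hT hB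

/-- Function of the entry vertex of the slot `j ≥ jm` (of the exit vertex of `jm` if `j = jm`). -/
noncomputable def FY2 (M : LM V Val a) (jm : ℕ) (ω : Fld a V Val) (y : V) (j : ℕ) (u : V) : ℝ :=
  if j = jm then M.kc jm u y else M.FYm jm ω y j u

theorem FY2_TT (M : LM V Val a) (jm : ℕ) (ω : Fld a V Val) (y : V) (j : ℕ) (hj : jm ≤ j) (u : V) :
    FY2 M jm ω y j u = TT (fun t => if t = 0 then Matrix.of (fun x y => M.kc jm y x) else
        Matrix.of (M.C (jm + t))) (AX (fun t => jm + t)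
      (fun t => if t = 0 then cod M jm else con M (fun t => jm + t) t) (xi M ω)) 0 (j - jm) y u := by
  unfold FY2
  by_cases h : j = jm
  · subst h
    rw [if_pos rfl, Nat.sub_self, TT_zero, if_pos rfl]
    rfl
  · rw [if_neg h]
    obtain ⟨m, hm⟩ : ∃ m, j = jm + m + 1 := ⟨j - jm - 1, by omega⟩
    have e1 : j - jm = m + 1 := by omega
    have e2 : j - jm - 1 = m := by omega
    unfold LM.FYm
    rw [e2, e1, TT_succ, if_pos rfl]
    set KT : Matrix V V ℝ := Matrix.of (fun x y => M.kc jm y x) with hKT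
    set sg : ℕ → ℕ := fun t => jm + t with hsg
    set co : ℕ → V → V → V × Val → ℝ :=
      fun t => if t = 0 then cod M jm else con M (fun t => jm + t) t with hco
    have h1 : M.SY jm ω y = (KT * AX sg co (xi M ω) 0 * Matrix.of (M.C (jm + 1))) y := by
      funext u'
      exact SY_eq M jm ω y u' sg co 0 rfl (if_pos rfl) KT (fun v y => rfl)
    rw [h1, Fn_TT]
    have h2 : TT (fun t => if t = 0 then KT * AX sg co (xi M ω) 0 * Matrix.of (M.C (jm + 1)) else
          Matrix.of (M.C (jm + 1 + t)))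
        (AX (fun t => jm + 1 + t) (con M fun t => jm + 1 + t) (xi M ω)) 0 m =
        KT * AX sg co (xi M ω) 0 * TT (fun t => Matrix.of (M.C (jm + 1 + t)))
          (AX (fun t => jm + 1 + t) (con M fun t => jm + 1 + t) (xi M ω)) 0 m := by
      rw [← TT_left]
    rw [h2]
    have h3 : TT (fun t => Matrix.of (M.C (jm + 1 + t)))
          (AX (fun t => jm + 1 + t) (con M fun t => jm + 1 + t) (xi M ω)) 0 m =
        TT (fun t => if t = 0 then KT else Matrix.of (M.C (jm + t))) (AX sg co (xi M ω))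
          (0 + 1) m := by
      rw [← TT_shift 1 m 0]
      refine TT_congr m 0 (fun t _ _ => ?_) (fun t _ _ => ?_)
      · have e3 : jm + (t + 1) = jm + 1 + t := by omega
        beta_reduce
        rw [if_neg (by omega), e3]
      · have e3 : jm + (t + 1) = jm + 1 + t := by omega
        ext p q
        rw [AX_apply, AX_apply]
        have e4 : co (t + 1) = con M sg (t + 1) := if_neg (by omega)
        rw [e4]
        unfold con
        simp only [hsg, e3]
    rw [h3]

end model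

section inst

variable {G : Type u} [Group G] [Fintype G] [DecidableEq G] {c : Ctx G} {τ : Bool} {d : ℕ}
  {Val : Type v} [Fintype Val] {a : ℕ} {M : LM G Val a} {jm : ℕ}

theorem TT_load {V : Type u} [Fintype V] [DecidableEq V] {n1 n2 : ℕ} {C1 C2 : ℕ → Matrix V V ℝ}
    {sg1 sg2 : ℕ → ℕ} {co1 co2 : ℕ → V → V → V × Val → ℝ} (ξ : ℕ → V × Val → ℝ) (φ : V → ℝ)
    (w u : V) :
    TT (cc3 n1 C1 (C1 n1 * Matrix.diagonal φ * C2 0) C2)
      (AX (ct n1 sg1 sg2) (ct n1 co1 co2) ξ) 0 (n1 + n2) w u =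
      ∑ x, φ x * (TT C1 (AX sg1 co1 ξ) 0 n1 w x * TT C2 (AX sg2 co2 ξ) 0 n2 x u) := by
  have h : AX (ct n1 sg1 sg2) (ct n1 co1 co2) ξ = ct n1 (AX sg1 co1 ξ) (AX sg2 co2 ξ) := by
    funext i
    ext x y
    rcases lt_or_ge i n1 with h | h
    · rw [AX_apply, ct_lt h, ct_lt h, ct_lt h, AX_apply]
    · rw [AX_apply, ct_ge h, ct_ge h, ct_ge h, AX_apply]
  rw [h, TT_cat _ _ _ _ _ _ _ n1 0 (by omega), Matrix.mul_apply]
  refine Finset.sum_congr rfl fun x _ => ?_
  rw [Matrix.mul_diagonal]; ring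

theorem TT_mean (hK : KERF_S.{u}) {n1 n2 : ℕ} {C1 C2 : ℕ → Matrix G G ℝ} {sg1 sg2 : ℕ → ℕ}
    {co1 co2 : ℕ → G → G → G × Val → ℝ} {pos1 pos2 ent1 ent2 : ℕ → ℕ}
    (h1 : Ch c τ M n1 C1 sg1 co1 pos1 ent1) (h2 : Ch c τ M n2 C2 sg2 co2 pos2 ent2)
    {φ : G → ℝ} (hφ : ∀ x, 0 ≤ φ x ∧ φ x ≤ 1) (w u : G) :
    TT (cc3 n1 C1 (C1 n1 * Matrix.diagonal φ * C2 0) C2)
      (AX (ct n1 sg1 sg2) (ct n1 co1 co2) (fun _ _ => 1)) 0 (n1 + n2) w u ≤
      ∑ x, φ x * (c.K τ (pos1 0) (ent1 n1 - pos1 0) w x *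
        c.K τ (pos2 0) (ent2 n2 - pos2 0) x u) := by
  rw [TT_load]
  refine Finset.sum_le_sum fun x _ => mul_le_mul_of_nonneg_left ?_ (hφ x).1
  have a1 := h1.win hK n1 0 (by omega) w x
  have a2 := h2.win hK n2 0 (by omega) x u
  rw [zero_add] at a1 a2
  exact mul_le_mul a1 a2 (TT_nn h2.C0 h2.A0 _ _ _ _)
    (le_trans (TT_nn h1.C0 h1.A0 _ _ _ _) a1)

theorem tail2 (hK : KERF_S.{u}) (hQ : QQF_S.{u}) (hN : NUMF_S.{u}) (hM : MRG_S.{u})
    {n1 n2 : ℕ} {C1 C2 : ℕ → Matrix G G ℝ} {sg1 sg2 : ℕ → ℕ}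
    {co1 co2 : ℕ → G → G → G × Val → ℝ} {pos1 pos2 ent1 ent2 : ℕ → ℕ}
    (h1 : Ch c τ M n1 C1 sg1 co1 pos1 ent1) (h2 : Ch c τ M n2 C2 sg2 co2 pos2 ent2)
    (hj : ent1 n1 = pos2 0) {φ : G → ℝ} (hφ : ∀ x, 0 ≤ φ x ∧ φ x ≤ 1)
    (hinj : ∀ i i', i < n1 + n2 → i' < n1 + n2 → ct n1 sg1 sg2 i = ct n1 sg1 sg2 i' → i = i')
    (hP : PosH τ c.k (n1 + n2) (cc3 n1 pos1 (pos1 n1) pos2) (ct n1 ent1 ent2))
    (hn : n1 + n2 ≤ 12 * c.k + 12) (hH : M.H0 ≤ 2 * c.X ^ 3000)
    {δ : ℝ} (hδ : 1 / c.X ^ 5000 ≤ δ) (w u : G)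
    (hF : ∑ x, φ x * (c.K τ (pos1 0) (ent1 n1 - pos1 0) w x *
        c.K τ (pos2 0) (ent2 n2 - pos2 0) x u) ≤ 2 * δ * c.q τ) :
    Pr M.law (fun ω => 10 * δ * c.q τ < ∑ x, φ x * (TT C1 (AX sg1 co1 (xi M ω)) 0 n1 w x *
      TT C2 (AX sg2 co2 (xi M ω)) 0 n2 x u)) ≤ 1 / (Fintype.card G : ℝ) ^ 20 := by
  have key := (h1.cat hK h2 hj hφ).tail hK hQ hN hM hinj hP hn hH hδ w u
    ((TT_mean hK h1 h2 hφ w u).trans hF)
  refine le_trans (le_of_eq ?_) key
  congr 1
  funext ω
  rw [TT_load]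

theorem sp_iff (hI : c.Inst τ d M jm) {j : ℕ} : M.sp j ↔ ¬ (τ = true ∧ d * j % 3 = 1) := by
  rw [hI.sp]
  constructor
  · rintro h ⟨h1, h2⟩
    exact h h1 (by omega)
  · intro h h1 h2
    exact h ⟨h1, by omega⟩

theorem X_tail (hK : KERF_S.{u}) (hQ : QQF_S.{u}) (hN : NUMF_S.{u}) (hM : MRG_S.{u})
    (hI : c.Inst τ d M jm) {φ : G → ℝ} {δ : ℝ} (hφ : ∀ x, 0 ≤ φ x ∧ φ x ≤ 1)
    (hδ : 1 / c.X ^ 5000 ≤ δ)
    (hkp : ∀ (par : Bool) (j j' : ℕ) (g v : G), 1 ≤ j → j ≤ j' → j' ≤ j + 6 → j' < 6 * c.ha par →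
      ∑ x, φ x * c.kp τ (c.ha par) j j' g x v ≤ 2 * δ)
    {j j' : ℕ} (h1 : j ≤ j') (h2 : j' ≤ j + 2) (h3 : j' ≤ jm) (hs : M.sp j) (hs' : M.sp (j' + 1))
    (u w : G) :
    Pr M.law (fun ω => 10 * δ * c.q τ < ∑ x, φ x * M.lx jm ω x j j' u w) ≤
      1 / (Fintype.card G : ℝ) ^ 20 := by
  obtain ⟨-, -, -, hk100, -⟩ := hN G c
  have hX := num_k hN c
  have hX0 : 0 < c.X := lt_of_lt_of_le one_pos hX.2
  have hδ0 : 0 < δ := lt_of_lt_of_le (by positivity) hδ
  have hd := hI.d1
  have hlen := hI.len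
  have hmid := hI.mid
  have hjm := H17.inst_jm hI
  obtain ⟨n1, hn1⟩ : ∃ n1, n1 = jm - j' := ⟨_, rfl⟩
  have c1 := ch_X1 hK hI (j' + 1) n1 (by omega)
  have c2 := ch_basic hK hI 0 j (2 * c.k + 2) (by omega)
  have hj : (fun t => if t = n1 then 6 * c.k + 6 else d * (j' + 1 + t) + 1) n1 =
      (fun t => 3 * (2 * c.k + 2) + d * (0 + t)) 0 := by
    beta_reduce
    rw [if_pos rfl]; ring
  have cc := c1.cat hK c2 hj hφ
  have hdj : ∀ t, d * (j' + 1 + (t + 1)) = d * (j' + 1 + t) + d := fun t => by ring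
  have hdj2 : ∀ t, d * (0 + (t + 1)) = d * (0 + t) + d := fun t => by ring
  have hdn : d * (j' + 1 + n1) = 3 * c.k + 3 := by
    rw [← hmid]; congr 1; omega
  have hdj' : d * (j' + 1) ≤ d * j + 6 := by
    rcases hd with rfl | rfl <;> omega
  -- positions
  have hP : PosH τ c.k (n1 + j)
      (cc3 n1 (fun t => d * (j' + 1 + t)) ((fun t => d * (j' + 1 + t)) n1)
        (fun t => 3 * (2 * c.k + 2) + d * (0 + t)))
      (ct n1 (fun t => if t = n1 then 6 * c.k + 6 else d * (j' + 1 + t) + 1)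
        (fun t => 3 * (2 * c.k + 2) + d * (0 + t) + 1)) := by
    refine ⟨cc.lt, cc.le1, cc.le2, ?_, ?_, ?_, ?_⟩
    · rintro ⟨b1, b2, b3⟩
      rcases Nat.eq_zero_or_pos n1 with h | h
      · subst h
        rw [cc3_eq] at b2
        beta_reduce at b2
        omega
      · rw [cc3_lt h] at b2
        beta_reduce at b2
        exact (sp_iff hI).1 hs' ⟨b1, by simpa using b2⟩
    · rintro ⟨b1, b2, b3⟩
      rcases Nat.eq_zero_or_pos j with h | h
      · subst h
        rw [add_zero, cc3_eq] at b2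
        beta_reduce at b2
        omega
      · rw [cc3_gt (by omega)] at b2
        beta_reduce at b2
        have e : n1 + j - n1 = j := by omega
        rw [e, zero_add] at b2
        exact (sp_iff hI).1 hs ⟨b1, by omega⟩
    · rintro i hi ⟨b1, b2, b3⟩ ⟨b4, b5, b6⟩
      rcases lt_trichotomy i n1 with h | h | h
      · have e2 : cc3 n1 (fun t => d * (j' + 1 + t)) ((fun t => d * (j' + 1 + t)) n1)
            (fun t => 3 * (2 * c.k + 2) + d * (0 + t)) (i + 1) = d * (j' + 1 + (i + 1)) := by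
          rcases (show i + 1 < n1 ∨ i + 1 = n1 by omega) with h' | h'
          · rw [cc3_lt h']
          · rw [h', cc3_eq]
        rw [e2, hdj] at b5
        rw [cc3_lt h] at b2
        beta_reduce at b2
        omega
      · subst h
        rw [cc3_eq, ct_ge le_rfl, Nat.sub_self] at b3
        beta_reduce at b3
        omega
      · rw [cc3_gt (by omega)] at b2 b5
        beta_reduce at b2 b5
        have e : i + 1 - n1 = (i - n1) + 1 := by omega
        rw [e, hdj2] at b5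
        omega
    · have e1 : cc3 n1 (fun t => d * (j' + 1 + t)) ((fun t => d * (j' + 1 + t)) n1)
            (fun t => 3 * (2 * c.k + 2) + d * (0 + t)) 0 = d * (j' + 1) := by
        rcases Nat.eq_zero_or_pos n1 with h | h
        · subst h
          rw [cc3_eq]
        · rw [cc3_lt h]
      rw [e1, ct_ge (by omega)]
      beta_reduce
      have e : n1 + j - n1 = j := by omega
      rw [e, zero_add]
      omega
  -- injectivity
  have hinj : ∀ i i', i < n1 + j → i' < n1 + j →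
      ct n1 (fun t => j' + 1 + t) (fun t => 0 + t) i =
        ct n1 (fun t => j' + 1 + t) (fun t => 0 + t) i' → i = i' := by
    intro i i' hi hi' he
    rcases lt_or_ge i n1 with h | h <;> rcases lt_or_ge i' n1 with h' | h'
    · rw [ct_lt h, ct_lt h'] at he; beta_reduce at he; omega
    · rw [ct_lt h, ct_ge h'] at he; beta_reduce at he; omega
    · rw [ct_ge h, ct_lt h'] at he; beta_reduce at he; omega
    · rw [ct_ge h, ct_ge h'] at he; beta_reduce at he; omega
  have hle : n1 + j ≤ 12 * c.k + 12 := by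
    have : a ≤ 6 * c.k + 2 := by rcases hd with rfl | rfl <;> omega
    omega
  -- the mean
  have hF : ∑ x, φ x * (c.K τ ((fun t => d * (j' + 1 + t)) 0)
      ((fun t => if t = n1 then 6 * c.k + 6 else d * (j' + 1 + t) + 1) n1 -
        (fun t => d * (j' + 1 + t)) 0) w x *
      c.K τ ((fun t => 3 * (2 * c.k + 2) + d * (0 + t)) 0)
      ((fun t => 3 * (2 * c.k + 2) + d * (0 + t) + 1) j -
        (fun t => 3 * (2 * c.k + 2) + d * (0 + t)) 0) x u) ≤ 2 * δ * c.q τ := by
    have e1 : (fun t => if t = n1 then 6 * c.k + 6 else d * (j' + 1 + t) + 1) n1 -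
        (fun t => d * (j' + 1 + t)) 0 = 6 * (c.k + 1) - d * (j' + 1) := by
      beta_reduce
      rw [if_pos rfl, add_zero]; rfl
    have e2 : (fun t => 3 * (2 * c.k + 2) + d * (0 + t) + 1) j -
        (fun t => 3 * (2 * c.k + 2) + d * (0 + t)) 0 = d * j + 1 := by
      beta_reduce
      rw [zero_add, zero_add, mul_zero]; omega
    rw [e1, e2]
    beta_reduce
    have e3 : 3 * (2 * c.k + 2) + d * (0 + 0) = 0 + 3 * (2 * c.k + 2) := by ring
    rw [e3, H17.K_period hK, add_zero]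
    have hkd : d * (j' + 1) ≤ d * (jm + 1) := Nat.mul_le_mul_left _ (by omega)
    have hdd : d * j + 1 ≤ d * (j' + 1) := by
      have : d * (j + 1) ≤ d * (j' + 1) := Nat.mul_le_mul_left _ (by omega)
      have e4 : d * (j + 1) = d * j + d := by ring
      omega
    have h4 := hkp true (d * j + 1) (d * (j' + 1)) (u⁻¹ * w) u (by omega) hdd (by omega)
      (by show d * (j' + 1) < 6 * (c.k + 1); omega)
    have hqq : 0 < c.qq τ (c.k + 1) := (hQ G c τ).2.1 _
    have hqle : c.qq τ (c.k + 1) ≤ c.q τ := (hQ G c τ).2.2.2.1 _ _ (by omega)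
    calc ∑ x, φ x * (c.K τ (d * (j' + 1)) (6 * (c.k + 1) - d * (j' + 1)) w x *
          c.K τ 0 (d * j + 1) x u)
        = c.qq τ (c.k + 1) * ∑ x, φ x * c.kp τ (c.ha true) (d * j + 1) (d * (j' + 1))
            (u⁻¹ * w) x u := by
          rw [Finset.mul_sum]
          refine Finset.sum_congr rfl fun x _ => ?_
          unfold Ctx.kp
          have e5 : u * (u⁻¹ * w) = w := by group
          have e6 : c.ha true = c.k + 1 := rfl
          rw [e5, e6]
          field_simp
      _ ≤ c.qq τ (c.k + 1) * (2 * δ) := mul_le_mul_of_nonneg_left h4 hqq.le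
      _ ≤ c.q τ * (2 * δ) := mul_le_mul_of_nonneg_right hqle (by linarith)
      _ = _ := by ring
  have hH : M.H0 ≤ 2 * c.X ^ 3000 := hI.H0
  have key := tail2 hK hQ hN hM c1 c2 hj hφ hinj hP hle hH hδ w u hF
  refine le_trans (le_of_eq ?_) key
  congr 1
  funext ω
  congr 1
  refine Finset.sum_congr rfl fun x _ => ?_
  congr 1
  unfold LM.lx
  rw [mul_comm, ← hn1]
  have g1 := Gn_TT M ω (Matrix.of (fun x y => M.kb jm y x)) x n1 (j' + 1) w
  have g2 := Fn_TT M ω 0 (Matrix.of (M.C 0)) x j u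
  have g3 : TT (fun t => if t = 0 then Matrix.of (M.C 0) else Matrix.of (M.C (0 + t)))
      (AX (fun t => 0 + t) (con M fun t => 0 + t) (xi M ω)) 0 j =
      TT (fun t => Matrix.of (M.C (0 + t)))
      (AX (fun t => 0 + t) (con M fun t => 0 + t) (xi M ω)) 0 j := by
    refine TT_congr j 0 (fun t _ _ => ?_) (fun _ _ _ => rfl)
    beta_reduce
    split
    · rename_i h; subst h; rfl
    · rfl
  rw [g3] at g2
  rw [← g1, ← g2]
  rfl

theorem Y_tail (hK : KERF_S.{u}) (hQ : QQF_S.{u}) (hN : NUMF_S.{u}) (hM : MRG_S.{u})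
    (hI : c.Inst τ d M jm) {φ : G → ℝ} {δ : ℝ} (hφ : ∀ x, 0 ≤ φ x ∧ φ x ≤ 1)
    (hδ : 1 / c.X ^ 5000 ≤ δ)
    (hkp : ∀ (par : Bool) (j j' : ℕ) (g v : G), 1 ≤ j → j ≤ j' → j' ≤ j + 6 → j' < 6 * c.ha par →
      ∑ x, φ x * c.kp τ (c.ha par) j j' g x v ≤ 2 * δ)
    {j j' : ℕ} (h0 : jm ≤ j) (h1 : j ≤ j') (h2 : j' ≤ j + 2) (h3 : j' < a) (h4 : jm < j')
    (hs : j ≠ jm → M.sp j) (hs' : M.sp (j' + 1)) (u w : G) :
    Pr M.law (fun ω => 10 * δ * c.q τ < ∑ y, φ y * (FY2 M jm ω y j u *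
      M.Gn ω (fun v => M.C a v y) (a - 1 - j') (j' + 1) w)) ≤
      1 / (Fintype.card G : ℝ) ^ 20 := by
  obtain ⟨-, -, -, hk100, -⟩ := hN G c
  have hX := num_k hN c
  have hX0 : 0 < c.X := lt_of_lt_of_le one_pos hX.2
  have hδ0 : 0 < δ := lt_of_lt_of_le (by positivity) hδ
  have hd := hI.d1
  have hlen := hI.len
  have hmid := hI.mid
  have hjm := H17.inst_jm hI
  obtain ⟨n1, hn1⟩ : ∃ n1, n1 = a - 1 - j' := ⟨_, rfl⟩
  obtain ⟨n2, hn2⟩ : ∃ n2, n2 = j - jm := ⟨_, rfl⟩
  have c1 := ch_basic hK hI (j' + 1) n1 0 (by omega)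
  have c2 := ch_Y2 hK hI n2 (by omega) (by omega)
  have hna : j' + 1 + n1 = a := by omega
  have hja : jm + n2 = j := by omega
  have hdj : ∀ t, d * (j' + 1 + (t + 1)) = d * (j' + 1 + t) + d := fun t => by ring
  have hdj2 : ∀ t, d * (jm + (t + 1)) = d * (jm + t) + d := fun t => by ring
  have hdn : d * (j' + 1 + n1) = 6 * c.k + 2 := by rw [hna, hlen]
  have hdj' : d * (j' + 1) ≤ d * j + 6 := by
    rcases hd with rfl | rfl <;> omega
  have hdjm : d * j = d * (jm + n2) := by rw [hja]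
  have hj : (fun t => 3 * 0 + d * (j' + 1 + t) + 1) n1 =
      (fun t => if t = 0 then 6 * c.k + 3 else 6 * c.k + d * (jm + t)) 0 := by
    beta_reduce
    rw [if_pos rfl, hdn]; ring
  have cc := c1.cat hK c2 hj hφ
  have hdm1 : d * (jm + 0 + 1) = d * (jm + 0) + d := by ring
  -- positions
  have hP : PosH τ c.k (n1 + n2)
      (cc3 n1 (fun t => 3 * 0 + d * (j' + 1 + t)) ((fun t => 3 * 0 + d * (j' + 1 + t)) n1)
        (fun t => if t = 0 then 6 * c.k + 3 else 6 * c.k + d * (jm + t)))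
      (ct n1 (fun t => 3 * 0 + d * (j' + 1 + t) + 1)
        (fun t => if t = 0 then 9 * c.k + 3 else 6 * c.k + d * (jm + t) + 1)) := by
    refine ⟨cc.lt, cc.le1, cc.le2, ?_, ?_, ?_, ?_⟩
    · rintro ⟨b1, b2, b3⟩
      have e1 : cc3 n1 (fun t => 3 * 0 + d * (j' + 1 + t)) ((fun t => 3 * 0 + d * (j' + 1 + t)) n1)
        (fun t => if t = 0 then 6 * c.k + 3 else 6 * c.k + d * (jm + t)) 0 = d * (j' + 1) := by
        rcases Nat.eq_zero_or_pos n1 with h | h
        · subst h
          rw [cc3_eq]; beta_reduce; ring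
        · rw [cc3_lt h]; beta_reduce; ring
      rw [e1] at b2
      exact (sp_iff hI).1 hs' ⟨b1, b2⟩
    · rintro ⟨b1, b2, b3⟩
      rcases Nat.eq_zero_or_pos n2 with h | h
      · subst h
        rw [add_zero, cc3_eq] at b2
        beta_reduce at b2
        rw [hdn] at b2
        omega
      · rw [cc3_gt (by omega)] at b2
        beta_reduce at b2
        have e : n1 + n2 - n1 = n2 := by omega
        rw [e, if_neg (by omega), ← hdjm] at b2
        exact (sp_iff hI).1 (hs (by omega)) ⟨b1, by omega⟩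
    · rintro i hi ⟨b1, b2, b3⟩ ⟨b4, b5, b6⟩
      rcases lt_trichotomy i n1 with h | h | h
      · have e2 : cc3 n1 (fun t => 3 * 0 + d * (j' + 1 + t))
            ((fun t => 3 * 0 + d * (j' + 1 + t)) n1)
            (fun t => if t = 0 then 6 * c.k + 3 else 6 * c.k + d * (jm + t)) (i + 1) =
            3 * 0 + d * (j' + 1 + (i + 1)) := by
          rcases (show i + 1 < n1 ∨ i + 1 = n1 by omega) with h' | h'
          · rw [cc3_lt h']
          · rw [h', cc3_eq]
        rw [e2, hdj] at b5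
        rw [cc3_lt h] at b2
        beta_reduce at b2
        omega
      · subst h
        rw [cc3_eq, ct_ge le_rfl, Nat.sub_self] at b3
        beta_reduce at b3
        rw [if_pos rfl, hdn] at b3
        omega
      · rw [cc3_gt (by omega)] at b2 b5
        beta_reduce at b2 b5
        have e : i + 1 - n1 = (i - n1) + 1 := by omega
        rw [e, if_neg (by omega), hdj2] at b5
        rw [if_neg (by omega)] at b2
        omega
    · have e1 : cc3 n1 (fun t => 3 * 0 + d * (j' + 1 + t)) ((fun t => 3 * 0 + d * (j' + 1 + t)) n1)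
        (fun t => if t = 0 then 6 * c.k + 3 else 6 * c.k + d * (jm + t)) 0 = d * (j' + 1) := by
        rcases Nat.eq_zero_or_pos n1 with h | h
        · subst h
          rw [cc3_eq]; beta_reduce; ring
        · rw [cc3_lt h]; beta_reduce; ring
      rw [e1, ct_ge (by omega)]
      beta_reduce
      have e : n1 + n2 - n1 = n2 := by omega
      rw [e]
      rcases Nat.eq_zero_or_pos n2 with h | h
      · rw [if_pos h]
        have e4 : d * j = d * jm := by rw [hdjm, h, add_zero]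
        have e5 : d * (jm + 1) = d * jm + d := by ring
        omega
      · rw [if_neg (by omega), ← hdjm]
        omega
  -- injectivity
  have hinj : ∀ i i', i < n1 + n2 → i' < n1 + n2 →
      ct n1 (fun t => j' + 1 + t) (fun t => jm + t) i =
        ct n1 (fun t => j' + 1 + t) (fun t => jm + t) i' → i = i' := by
    intro i i' hi hi' he
    rcases lt_or_ge i n1 with h | h <;> rcases lt_or_ge i' n1 with h' | h'
    · rw [ct_lt h, ct_lt h'] at he; beta_reduce at he; omega
    · rw [ct_lt h, ct_ge h'] at he; beta_reduce at he; omega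
    · rw [ct_ge h, ct_lt h'] at he; beta_reduce at he; omega
    · rw [ct_ge h, ct_ge h'] at he; beta_reduce at he; omega
  have hle : n1 + n2 ≤ 12 * c.k + 12 := by
    have : a ≤ 6 * c.k + 2 := by rcases hd with rfl | rfl <;> omega
    omega
  -- the mean
  obtain ⟨m, hm⟩ : ∃ m, m = if n2 = 0 then 3 * c.k else d * j - 2 := ⟨_, rfl⟩
  have hF : ∑ x, φ x * (c.K τ ((fun t => 3 * 0 + d * (j' + 1 + t)) 0)
      ((fun t => 3 * 0 + d * (j' + 1 + t) + 1) n1 -
        (fun t => 3 * 0 + d * (j' + 1 + t)) 0) w x *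
      c.K τ ((fun t => if t = 0 then 6 * c.k + 3 else 6 * c.k + d * (jm + t)) 0)
      ((fun t => if t = 0 then 9 * c.k + 3 else 6 * c.k + d * (jm + t) + 1) n2 -
        (fun t => if t = 0 then 6 * c.k + 3 else 6 * c.k + d * (jm + t)) 0) x u) ≤
      2 * δ * c.q τ := by
    have e1 : (fun t => 3 * 0 + d * (j' + 1 + t) + 1) n1 -
        (fun t => 3 * 0 + d * (j' + 1 + t)) 0 = 6 * c.k - (d * (j' + 1) - 3) := by
      beta_reduce
      rw [hdn, add_zero]
      have : d * (jm + 1) ≤ d * (j' + 1) := Nat.mul_le_mul_left _ (by omega)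
      omega
    have hdjm1 : jm < j → 3 * c.k + 3 ≤ d * j := by
      intro h
      have : d * (jm + 1) ≤ d * j := Nat.mul_le_mul_left _ (by omega)
      omega
    have e2 : (fun t => if t = 0 then 9 * c.k + 3 else 6 * c.k + d * (jm + t) + 1) n2 -
        (fun t => if t = 0 then 6 * c.k + 3 else 6 * c.k + d * (jm + t)) 0 = m := by
      beta_reduce
      rw [if_pos rfl, hm]
      rcases Nat.eq_zero_or_pos n2 with h | h
      · rw [if_pos h, if_pos h]; omega
      · rw [if_neg (by omega), if_neg (by omega), ← hdjm]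
        have := hdjm1 (by omega)
        omega
    rw [e1, e2]
    beta_reduce
    have e3 : 3 * 0 + d * (j' + 1 + 0) = (d * (j' + 1) - 3) + 3 * 1 := by
      have : d * (jm + 1) ≤ d * (j' + 1) := Nat.mul_le_mul_left _ (by omega)
      rw [add_zero]
      omega
    have e3' : (if (0 : ℕ) = 0 then 6 * c.k + 3 else 6 * c.k + d * (jm + 0)) =
        0 + 3 * (2 * c.k + 1) := by
      rw [if_pos rfl]; ring
    rw [e3, e3', H17.K_period hK, H17.K_period hK]
    have hkd : d * (j' + 1) ≤ 6 * c.k + 2 := by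
      rw [← hlen]; exact Nat.mul_le_mul_left _ (by omega)
    have hm1 : 1 ≤ m := by
      rw [hm]; split
      · omega
      · have := hdjm1 (by omega)
        omega
    have hm2 : m ≤ d * (j' + 1) - 3 := by
      rw [hm]; split
      · have h5 : d * (jm + 2) ≤ d * (j' + 1) := Nat.mul_le_mul_left _ (by omega)
        have h6 : d * (jm + 2) = d * (jm + 1) + d := by ring
        omega
      · have h5 : d * (j + 1) ≤ d * (j' + 1) := Nat.mul_le_mul_left _ (by omega)
        have h6 : d * (j + 1) = d * j + d := by ring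
        omega
    have hm3 : d * (j' + 1) - 3 ≤ m + 6 := by
      rw [hm]; split
      · rename_i h
        have e4 : d * j = d * jm := by rw [hdjm, h, add_zero]
        have e5 : d * (jm + 1) = d * jm + d := by ring
        omega
      · omega
    have h4 := hkp false m (d * (j' + 1) - 3) (u⁻¹ * w) u hm1 hm2 hm3
      (by show d * (j' + 1) - 3 < 6 * c.k; omega)
    have hqq : 0 < c.qq τ c.k := (hQ G c τ).2.1 _
    calc ∑ x, φ x * (c.K τ (d * (j' + 1) - 3) (6 * c.k - (d * (j' + 1) - 3)) w x *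
          c.K τ 0 m x u)
        = c.qq τ c.k * ∑ x, φ x * c.kp τ (c.ha false) m (d * (j' + 1) - 3)
            (u⁻¹ * w) x u := by
          rw [Finset.mul_sum]
          refine Finset.sum_congr rfl fun x _ => ?_
          unfold Ctx.kp
          have e5 : u * (u⁻¹ * w) = w := by group
          have e6 : c.ha false = c.k := rfl
          rw [e5, e6]
          field_simp
      _ ≤ c.qq τ c.k * (2 * δ) := mul_le_mul_of_nonneg_left h4 hqq.le
      _ = _ := by
          have : c.qq τ c.k = c.q τ := rfl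
          rw [this]; ring
  have hH : M.H0 ≤ 2 * c.X ^ 3000 := hI.H0
  have key := tail2 hK hQ hN hM c1 c2 hj hφ hinj hP hle hH hδ w u hF
  refine le_trans (le_of_eq ?_) key
  congr 1
  funext ω
  congr 1
  refine Finset.sum_congr rfl fun x _ => ?_
  congr 1
  rw [mul_comm, ← hn1]
  have g1 := Gn_TT M ω (Matrix.of (M.C a)) x n1 (j' + 1) w
  have g2 := FY2_TT M jm ω x j h0 u
  have g3 : TT (fun t => if t = n1 then Matrix.of (M.C a) else Matrix.of (M.C (j' + 1 + t)))
      (AX (fun t => j' + 1 + t) (con M fun t => j' + 1 + t) (xi M ω)) 0 n1 =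
      TT (fun t => Matrix.of (M.C (j' + 1 + t)))
      (AX (fun t => j' + 1 + t) (con M fun t => j' + 1 + t) (xi M ω)) 0 n1 := by
    refine TT_congr n1 0 (fun t _ _ => ?_) (fun _ _ _ => rfl)
    beta_reduce
    split
    · rename_i h; subst h; rw [hna]
    · rfl
  rw [g3] at g1
  rw [← hn2] at g2
  rw [← g1, ← g2]
  rfl

/-- Tail bound for the in-mass of one slot. -/
theorem T_tail (hN : NUMF_S.{u}) (hI : c.Inst τ d M jm) {j : ℕ} (hj : j < a) (v : G) :
    Pr M.law (fun ω => c.X * M.H0 / 10 < M.Top ω j (fun _ => 1) v) ≤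
      1 / (Fintype.card G : ℝ) ^ 20 := by
  obtain ⟨hX6, -, -, hk100, -⟩ := hN G c
  have hX := num_k hN c
  have hX0 : 0 < c.X := lt_of_lt_of_le one_pos hX.2
  have hH1 : 1 ≤ M.H0 := M.hH0
  have hH0 : 0 ≤ M.H0 := le_trans zero_le_one M.hH0
  let C : ℕ → Matrix G G ℝ := fun t => if t = 0 then Matrix.of (fun _ _ => 1) else
    Matrix.of (M.C (j + t))
  have hC : ∀ i x y, 0 ≤ C i x y := by
    intro i x y
    show 0 ≤ (if i = 0 then Matrix.of (fun _ _ => (1 : ℝ)) else Matrix.of (M.C (j + i))) x y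
    split
    · exact zero_le_one
    · exact M.hC0 _ _ _
  have hTT : ∀ ω : Fld a G Val, TT C (AX (fun t => j + t) (con M fun t => j + t) (xi M ω)) 0 1 1 v =
      M.Top ω j (fun _ => 1) v := by
    intro ω
    rw [TT_succ, TT_zero, Matrix.mul_assoc, Matrix.mul_apply]
    unfold LM.Top
    refine Finset.sum_congr rfl fun u _ => ?_
    rw [AX_mul, Finset.mul_sum]
    refine Finset.sum_congr rfl fun e _ => ?_
    show (1 : ℝ) * (M.lw ω (j + 0) u e * M.C (j + (0 + 1)) (M.ex u e) v) = _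
    rw [add_zero, zero_add]; ring
  have h01 : TT C (AX (fun t => j + t) (con M fun t => j + t) (fun _ _ => 1)) 0 1 1 v ≤ 1 := by
    rw [TT_succ, TT_zero, Matrix.mul_assoc, Matrix.mul_apply]
    refine le_trans (le_of_eq ?_) (M.hM j v)
    refine Finset.sum_congr rfl fun u _ => ?_
    show (1 : ℝ) * _ = _
    rw [one_mul, Matrix.mul_apply]
    have h1 : ∀ z, AX (fun t => j + t) (con M fun t => j + t) (fun _ _ => 1) 0 u z * C (0 + 1) z v =
        ∑ e, ind (M.ex u e = z) * (M.kap j u e * M.C (j + 1) z v) := by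
      intro z
      rw [AX_one, Finset.sum_mul]
      refine Finset.sum_congr rfl fun e _ => ?_
      show M.kap (j + 0) u e * ind (M.ex u e = z) * M.C (j + (0 + 1)) z v = _
      rw [add_zero, zero_add]; ring
    rw [Finset.sum_congr rfl fun z _ => h1 z, Finset.sum_comm]
    refine Finset.sum_congr rfl fun e _ => ?_
    rw [sum_ind_eq (f := fun z => M.kap j u e * M.C (j + 1) z v)]
  have hall : ∀ w v' : G, TT C (AX (fun t => j + t) (con M fun t => j + t) (fun _ _ => 1)) 0 1 w v' =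
      TT C (AX (fun t => j + t) (con M fun t => j + t) (fun _ _ => 1)) 0 1 1 v' := by
    intro w v'
    rw [TT_succ, TT_zero, Matrix.mul_assoc, Matrix.mul_apply, Matrix.mul_apply]
    rfl
  have h01' : ∀ v' : G,
      TT C (AX (fun t => j + t) (con M fun t => j + t) (fun _ _ => 1)) 0 1 1 v' ≤ 1 := by
    intro v'
    rw [TT_succ, TT_zero, Matrix.mul_assoc, Matrix.mul_apply]
    refine le_trans (le_of_eq ?_) (M.hM j v')
    refine Finset.sum_congr rfl fun u _ => ?_
    show (1 : ℝ) * _ = _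
    rw [one_mul, Matrix.mul_apply]
    have h1 : ∀ z, AX (fun t => j + t) (con M fun t => j + t) (fun _ _ => 1) 0 u z * C (0 + 1) z v' =
        ∑ e, ind (M.ex u e = z) * (M.kap j u e * M.C (j + 1) z v') := by
      intro z
      rw [AX_one, Finset.sum_mul]
      refine Finset.sum_congr rfl fun e _ => ?_
      show M.kap (j + 0) u e * ind (M.ex u e = z) * M.C (j + (0 + 1)) z v' = _
      rw [add_zero, zero_add]; ring
    rw [Finset.sum_congr rfl fun z _ => h1 z, Finset.sum_comm]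
    refine Finset.sum_congr rfl fun e _ => ?_
    rw [sum_ind_eq (f := fun z => M.kap j u e * M.C (j + 1) z v')]
  have hw : ∀ i r (x y : G), i + r ≤ 1 →
      TT C (AX (fun t => j + t) (con M fun t => j + t) (fun _ _ => 1)) i r x y ≤
        (fun _ _ => (1 : ℝ)) i r := by
    intro i r x y hir
    rcases (show (i = 0 ∧ r = 0) ∨ (i = 1 ∧ r = 0) ∨ (i = 0 ∧ r = 1) by omega) with
      ⟨rfl, rfl⟩ | ⟨rfl, rfl⟩ | ⟨rfl, rfl⟩
    · exact le_of_eq rfl
    · show M.C (j + 1) x y ≤ 1
      exact (Finset.single_le_sum (f := fun y => M.C (j + 1) x y) (fun y _ => M.hC0 _ _ _)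
        (Finset.mem_univ y)).trans (M.hCr _ _)
    · rw [hall]; exact h01' y
  have key := seq_tail M (N := 1) hC (fun i x y s => con_nn M (fun t => j + t) i x y s)
    (fun i hi => by show j + i < a; omega)
    (fun i i' hi hi' _ => by omega) (fun i s _ => con_sum M (fun t => j + t) i s)
    (E := fun _ _ => (1 : ℝ)) (fun _ _ => zero_le_one) hw (pp c) (c.X * M.H0 / 10)
    (by positivity) 1 v 1 h01
  simp only [hTT] at key
  refine key.trans (exp_tail c ?_ ?_)
  · refine div_nonneg (add_nonneg zero_le_one ?_) (by positivity)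
    exact Finset.sum_nonneg fun t _ => H92.SW_nonneg (fun _ _ => zero_le_one)
      (mul_nonneg (Nat.cast_nonneg _) hH0) _ _ _
  · rw [div_le_iff₀ (by positivity)]
    have e1 : ∑ t ∈ Finset.range 1, H92.SW (fun _ _ => (1 : ℝ)) (pp c * M.H0) (t + 1) 0 1 =
        pp c * M.H0 := by
      simp [H92.SW]
    rw [e1]
    have hp := pp_le hN c
    have hk1 : (100 : ℝ) ≤ c.k := by exact_mod_cast hk100
    have e2 : 100 * (20 * (c.k : ℝ) + 2) ≤ c.X := by
      refine le_trans ?_ hX.1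
      nlinarith
    calc 1 + pp c * M.H0 ≤ M.H0 + (20 * c.k + 1) * M.H0 := by
          have := mul_le_mul_of_nonneg_right hp hH0
          linarith
      _ = (20 * c.k + 2) * M.H0 := by ring
      _ ≤ (c.X / 100) * M.H0 := mul_le_mul_of_nonneg_right (by linarith) hH0
      _ ≤ 3 / 10 * (c.X * M.H0 / 10) := by
          have : 0 ≤ c.X * M.H0 := by positivity
          linarith

end inst

end Pool.Agent.Lib.MP_688fd0_co.TF.H58
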