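import Pool.Agent.Lib.MP_688fd0_co.TF.H17.Mom
import Pool.Agent.Lib.MP_688fd0_co.TE.H92.Gap
import Pool.Agent.Lib.MP_688fd0_co.TF.Iface3

/-!
# Theorem F: sequences of slots, pinned expansion and tail bounds for labelled path sums

`TT C A i r = C i * A i * C (i+1) * ... * A (i+r-1) * C (i+r)`.
-/

namespace Pool.Agent.Lib.MP_688fd0_co.TF.H58

open Pool.Agent.Lib.MP_688fd0_co.TE
open Pool.Agent.Lib.MP_688fd0_co.TE.H92 (SW SW_nonneg)

universe u v w

section TT

variable {V : Type u} [Fintype V] [DecidableEq V]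

/-- Product of connecting kernels and slot kernels. -/
noncomputable def TT (C A : ℕ → Matrix V V ℝ) : ℕ → ℕ → Matrix V V ℝ
  | i, 0 => C i
  | i, r + 1 => C i * A i * TT C A (i + 1) r

theorem TT_zero (C A : ℕ → Matrix V V ℝ) (i : ℕ) : TT C A i 0 = C i := rfl
theorem TT_succ (C A : ℕ → Matrix V V ℝ) (i r : ℕ) :
    TT C A i (r + 1) = C i * A i * TT C A (i + 1) r := rfl

theorem mul_nn {A B : Matrix V V ℝ} (hA : ∀ x y, 0 ≤ A x y) (hB : ∀ x y, 0 ≤ B x y) (x y : V) :
    0 ≤ (A * B) x y := by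
  rw [Matrix.mul_apply]
  exact Finset.sum_nonneg fun v _ => mul_nonneg (hA x v) (hB v y)

theorem mul_mono {A A' B B' : Matrix V V ℝ} (hA : ∀ x y, 0 ≤ A x y) (hB : ∀ x y, 0 ≤ B x y)
    (hAA : ∀ x y, A x y ≤ A' x y) (hBB : ∀ x y, B x y ≤ B' x y) (x y : V) :
    (A * B) x y ≤ (A' * B') x y := by
  rw [Matrix.mul_apply, Matrix.mul_apply]
  exact Finset.sum_le_sum fun v _ => mul_le_mul (hAA x v) (hBB v y) (hB v y)
    (le_trans (hA x v) (hAA x v))

theorem TT_nn {C A : ℕ → Matrix V V ℝ} (hC : ∀ i x y, 0 ≤ C i x y) (hA : ∀ i x y, 0 ≤ A i x y) :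
    ∀ (r i : ℕ) (x y : V), 0 ≤ TT C A i r x y
  | 0, i, x, y => hC i x y
  | r + 1, i, x, y => mul_nn (mul_nn (hC i) (hA i)) (TT_nn hC hA r (i + 1)) x y

theorem TT_mono {C A C' A' : ℕ → Matrix V V ℝ} (hC : ∀ i x y, 0 ≤ C i x y)
    (hA : ∀ i x y, 0 ≤ A i x y) (hCC : ∀ i x y, C i x y ≤ C' i x y)
    (hAA : ∀ i x y, A i x y ≤ A' i x y) :
    ∀ (r i : ℕ) (x y : V), TT C A i r x y ≤ TT C' A' i r x y
  | 0, i, x, y => hCC i x y
  | r + 1, i, x, y => mul_mono (mul_nn (hC i) (hA i)) (TT_nn hC hA r (i + 1))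
      (mul_mono (hC i) (hA i) (hCC i) (hAA i)) (TT_mono hC hA hCC hAA r (i + 1)) x y

/-- The kernels and slot kernels only matter in the range used. -/
theorem TT_congr {C A C' A' : ℕ → Matrix V V ℝ} : ∀ (r i : ℕ),
    (∀ t, i ≤ t → t ≤ i + r → C t = C' t) → (∀ t, i ≤ t → t < i + r → A t = A' t) →
    TT C A i r = TT C' A' i r
  | 0, i, h1, _ => h1 i le_rfl le_rfl
  | r + 1, i, h1, h2 => by
    rw [TT_succ, TT_succ, h1 i le_rfl (by omega), h2 i le_rfl (by omega),
      TT_congr r (i + 1) (fun t a b => h1 t (by omega) (by omega))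
        (fun t a b => h2 t (by omega) (by omega))]

/-- Shift of the indices. -/
theorem TT_shift {C A : ℕ → Matrix V V ℝ} (k : ℕ) : ∀ (r i : ℕ),
    TT (fun t => C (t + k)) (fun t => A (t + k)) i r = TT C A (i + k) r
  | 0, _ => rfl
  | r + 1, i => by
    rw [TT_succ, TT_succ, TT_shift k r (i + 1)]
    have : i + 1 + k = i + k + 1 := by omega
    rw [this]

/-- Concatenation. -/
theorem TT_add (C A : ℕ → Matrix V V ℝ) : ∀ (r s i : ℕ),
    TT C A i (r + 1 + s) = TT C A i r * A (i + r) * TT C A (i + r + 1) s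
  | 0, s, i => by
    have : 0 + 1 + s = s + 1 := by omega
    rw [this, TT_succ, TT_zero, add_zero]
  | r + 1, s, i => by
    have e : r + 1 + 1 + s = (r + 1 + s) + 1 := by omega
    rw [e, TT_succ, TT_add C A r s (i + 1), TT_succ]
    have e1 : i + 1 + r = i + (r + 1) := by omega
    rw [e1]
    simp only [Matrix.mul_assoc]

/-- Expansion at the first pin. -/
theorem TT_expand (C K G : ℕ → Matrix V V ℝ) : ∀ (r i : ℕ),
    TT C (fun t => K t + G t) i r = TT C K i r + ∑ t ∈ Finset.range r,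
      TT C K i t * G (i + t) * TT C (fun t => K t + G t) (i + t + 1) (r - 1 - t)
  | 0, i => by simp [TT_zero]
  | r + 1, i => by
    have ih := TT_expand C K G r (i + 1)
    rw [TT_succ, Finset.sum_range_succ']
    have h1 : C i * (K i + G i) * TT C (fun t => K t + G t) (i + 1) r =
        C i * K i * TT C (fun t => K t + G t) (i + 1) r +
        C i * G i * TT C (fun t => K t + G t) (i + 1) r := by
      rw [Matrix.mul_add, Matrix.add_mul]
    rw [h1]
    have h2 : C i * K i * TT C (fun t => K t + G t) (i + 1) r = TT C K i (r + 1) +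
        ∑ t ∈ Finset.range r, TT C K i (t + 1) * G (i + (t + 1)) *
          TT C (fun t => K t + G t) (i + (t + 1) + 1) (r + 1 - 1 - (t + 1)) := by
      conv_lhs => rw [ih]
      rw [Matrix.mul_add, Finset.mul_sum, TT_succ]
      congr 1
      refine Finset.sum_congr rfl fun t ht => ?_
      have e2 : i + 1 + t = i + (t + 1) := by omega
      have e3 : r + 1 - 1 - (t + 1) = r - 1 - t := by omega
      rw [e2, e3, TT_succ]
      simp only [Matrix.mul_assoc]
    have h3 : C i * G i * TT C (fun t => K t + G t) (i + 1) r =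
        TT C K i 0 * G (i + 0) * TT C (fun t => K t + G t) (i + 0 + 1) (r + 1 - 1 - 0) := by
      simp [TT_zero]
    rw [h2, h3, add_assoc]

/-- One pin. -/
theorem pin_le {θ A B : ℝ} (hA : 0 ≤ A) (hB : 0 ≤ B) {F G F' : Matrix V V ℝ}
    (hF0 : ∀ x y, 0 ≤ F x y) (hG0 : ∀ x y, 0 ≤ G x y)
    (hF : ∀ x y, F x y ≤ A) (hF' : ∀ x y, F' x y ≤ B)
    (hG : ∑ x, ∑ y, G x y ≤ θ) (x y : V) : (F * G * F') x y ≤ θ * A * B := by
  rw [Matrix.mul_apply]
  have h1 : ∀ v, (F * G) x v * F' v y ≤ (∑ u, A * G u v) * B := by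
    intro v
    have h2 : (F * G) x v ≤ ∑ u, A * G u v := by
      rw [Matrix.mul_apply]
      exact Finset.sum_le_sum fun u _ => mul_le_mul_of_nonneg_right (hF x u) (hG0 u v)
    exact (mul_le_mul_of_nonneg_left (hF' v y) (mul_nn hF0 hG0 x v)).trans
      (mul_le_mul_of_nonneg_right h2 hB)
  calc ∑ v, (F * G) x v * F' v y ≤ ∑ v, (∑ u, A * G u v) * B := Finset.sum_le_sum fun v _ => h1 v
    _ = (∑ u, ∑ v, G u v) * (A * B) := by
      rw [← Finset.sum_mul, Finset.sum_comm]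
      simp only [← Finset.mul_sum]
      ring
    _ ≤ θ * (A * B) := mul_le_mul_of_nonneg_right hG (mul_nonneg hA hB)
    _ = _ := by ring

/-- The pinned expansion: bound. -/
theorem TT_le {C K G : ℕ → Matrix V V ℝ} (hC : ∀ i x y, 0 ≤ C i x y) (hK : ∀ i x y, 0 ≤ K i x y)
    (hG : ∀ i x y, 0 ≤ G i x y) {θ : ℝ} (hθ : 0 ≤ θ) {E : ℕ → ℕ → ℝ} (hE : ∀ i r, 0 ≤ E i r)
    {N : ℕ} (hGs : ∀ i, i < N → ∑ x, ∑ y, G i x y ≤ θ)
    (hw : ∀ i r x y, i + r ≤ N → TT C K i r x y ≤ E i r) :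
    ∀ (r i : ℕ), i + r ≤ N → ∀ x y, TT C (fun t => K t + G t) i r x y ≤
      TT C K i r x y + ∑ s ∈ Finset.range r, SW E θ (s + 1) i r := by
  intro r
  induction r using Nat.strong_induction_on with
  | _ r ih =>
    intro i hi x y
    rw [TT_expand, Matrix.add_apply, Matrix.sum_apply]
    refine add_le_add le_rfl ?_
    have h1 : ∀ t ∈ Finset.range r,
        (TT C K i t * G (i + t) * TT C (fun t => K t + G t) (i + t + 1) (r - 1 - t)) x y ≤
        ∑ s ∈ Finset.range r, θ * E i t * SW E θ s (i + t + 1) (r - 1 - t) := by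
      intro t ht
      have ht' := Finset.mem_range.1 ht
      have h2 : ∀ v w, TT C (fun t => K t + G t) (i + t + 1) (r - 1 - t) v w ≤
          ∑ s ∈ Finset.range r, SW E θ s (i + t + 1) (r - 1 - t) := by
        intro v w
        refine (ih (r - 1 - t) (by omega) (i + t + 1) (by omega) v w).trans ?_
        have h3 : TT C K (i + t + 1) (r - 1 - t) v w ≤ SW E θ 0 (i + t + 1) (r - 1 - t) :=
          hw _ _ _ _ (by omega)
        calc TT C K (i + t + 1) (r - 1 - t) v w +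
              ∑ s ∈ Finset.range (r - 1 - t), SW E θ (s + 1) (i + t + 1) (r - 1 - t)
            ≤ SW E θ 0 (i + t + 1) (r - 1 - t) +
              ∑ s ∈ Finset.range (r - 1 - t), SW E θ (s + 1) (i + t + 1) (r - 1 - t) :=
              add_le_add h3 le_rfl
          _ = ∑ s ∈ Finset.range (r - 1 - t + 1), SW E θ s (i + t + 1) (r - 1 - t) := by
              rw [Finset.sum_range_succ', add_comm]
          _ ≤ ∑ s ∈ Finset.range r, SW E θ s (i + t + 1) (r - 1 - t) :=
              Finset.sum_le_sum_of_subset_of_nonneg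
                (Finset.range_subset_range.2 (by omega))
                (fun s _ _ => SW_nonneg hE hθ s _ _)
      have h4 := pin_le (θ := θ) (hE i t)
        (Finset.sum_nonneg fun s (_ : s ∈ Finset.range r) =>
          SW_nonneg hE hθ s (i + t + 1) (r - 1 - t))
        (fun v w => TT_nn hC hK t i v w) (hG (i + t)) (fun v w => hw i t v w (by omega)) h2
        (hGs (i + t) (by omega)) x y
      refine h4.trans (le_of_eq ?_)
      rw [Finset.mul_sum]
    refine (Finset.sum_le_sum h1).trans (le_of_eq ?_)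
    rw [Finset.sum_comm]
    rfl

end TT

section Rep

variable {V : Type u} {Val : Type v} [Fintype V] [Fintype Val] [DecidableEq V]

/-- `Φ` is a polynomial with nonnegative coefficients in the label weights, with at most one factor
for every slot, using only the slots in `S`. -/
def Rep (a : ℕ) (S : ℕ → Prop) (Φ : (ℕ → V × Val → ℝ) → ℝ) : Prop :=
  ∃ (n : ℕ) (c : Fin n → ℝ) (st : Fin n → Fin a → Option (V × Val)), (∀ i, 0 ≤ c i) ∧
    (∀ i (t : Fin a) s, st i t = some s → S t) ∧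
    ∀ ξ : ℕ → V × Val → ℝ, Φ ξ = ∑ i, c i * ∏ t : Fin a, (st i t).elim 1 (ξ t)

theorem Rep.of {a : ℕ} {S : ℕ → Prop} {Φ : (ℕ → V × Val → ℝ) → ℝ} {I : Type w} [Fintype I]
    (c : I → ℝ) (st : I → Fin a → Option (V × Val)) (hc : ∀ i, 0 ≤ c i)
    (hS : ∀ i (t : Fin a) s, st i t = some s → S t)
    (h : ∀ ξ : ℕ → V × Val → ℝ, Φ ξ = ∑ i, c i * ∏ t : Fin a, (st i t).elim 1 (ξ t)) :
    Rep a S Φ := by
  let e := Fintype.equivFin I
  refine ⟨Fintype.card I, fun i => c (e.symm i), fun i => st (e.symm i), fun i => hc _,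
    fun i t s hs => hS _ t s hs, fun ξ => ?_⟩
  rw [h ξ]
  exact (Equiv.sum_comp e.symm (fun i => c i * ∏ t : Fin a, (st i t).elim 1 (ξ t))).symm

theorem Rep.const {a : ℕ} {S : ℕ → Prop} {r : ℝ} (hr : 0 ≤ r) :
    Rep (V := V) (Val := Val) a S (fun _ => r) := by
  refine ⟨1, fun _ => r, fun _ _ => none, fun _ => hr, ?_, fun ξ => ?_⟩
  · intro i t s h
    exact absurd h (by simp)
  · simp

theorem Rep.sum {a : ℕ} {S : ℕ → Prop} {ι : Type w} [Fintype ι]
    {Φ : ι → (ℕ → V × Val → ℝ) → ℝ} (h : ∀ k, Rep a S (Φ k)) :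
    Rep a S (fun ξ => ∑ k, Φ k ξ) := by
  choose n c st hc hS hΦ using h
  refine Rep.of (I := Σ k : ι, Fin (n k)) (fun p => c p.1 p.2) (fun p => st p.1 p.2)
    (fun p => hc _ _) (fun p t s hs => hS _ _ t s hs) (fun ξ => ?_)
  rw [Fintype.sum_sigma]
  exact Finset.sum_congr rfl fun k _ => hΦ k ξ

theorem Rep.smul {a : ℕ} {S : ℕ → Prop} {Φ : (ℕ → V × Val → ℝ) → ℝ} {r : ℝ} (hr : 0 ≤ r)
    (h : Rep a S Φ) : Rep a S (fun ξ => r * Φ ξ) := by
  obtain ⟨n, c, st, hc, hS, hΦ⟩ := h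
  refine ⟨n, fun i => r * c i, st, fun i => mul_nonneg hr (hc i), hS, fun ξ => ?_⟩
  beta_reduce
  rw [hΦ ξ, Finset.mul_sum]
  exact Finset.sum_congr rfl fun i _ => by ring

theorem Rep.mono {a : ℕ} {S S' : ℕ → Prop} {Φ : (ℕ → V × Val → ℝ) → ℝ} (h : Rep a S Φ)
    (hSS : ∀ t, S t → S' t) : Rep a S' Φ := by
  obtain ⟨n, c, st, hc, hS, hΦ⟩ := h
  exact ⟨n, c, st, hc, fun i t s hs => hSS _ (hS i t s hs), hΦ⟩

theorem Rep.var_mul {a : ℕ} {S : ℕ → Prop} {Φ : (ℕ → V × Val → ℝ) → ℝ} (t : ℕ) (ht : t < a)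
    (hSt : ¬ S t) (s : V × Val) (h : Rep a S Φ) :
    Rep a (fun t' => t' = t ∨ S t') (fun ξ => ξ t s * Φ ξ) := by
  obtain ⟨n, c, st, hc, hS, hΦ⟩ := h
  have hnone : ∀ i, st i ⟨t, ht⟩ = none := by
    intro i
    cases h : st i ⟨t, ht⟩ with
    | none => rfl
    | some s' => exact absurd (hS i ⟨t, ht⟩ s' h) hSt
  refine ⟨n, c, fun i => Function.update (st i) ⟨t, ht⟩ (some s), hc, ?_, fun ξ => ?_⟩
  · intro i t' s' hs'
    beta_reduce at hs'
    by_cases h' : t' = ⟨t, ht⟩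
    · left; rw [h']
    · rw [Function.update_of_ne h'] at hs'
      exact Or.inr (hS i t' s' hs')
  · beta_reduce
    rw [hΦ ξ, Finset.mul_sum]
    refine Finset.sum_congr rfl fun i _ => ?_
    have h1 : ∏ t' : Fin a, (Function.update (st i) ⟨t, ht⟩ (some s) t').elim 1 (ξ t') =
        ξ t s * ∏ t' : Fin a, (st i t').elim 1 (ξ t') := by
      rw [← Finset.mul_prod_erase Finset.univ _ (Finset.mem_univ (⟨t, ht⟩ : Fin a)),
        ← Finset.mul_prod_erase Finset.univ (fun t' : Fin a => (st i t').elim 1 (ξ t'))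
          (Finset.mem_univ (⟨t, ht⟩ : Fin a))]
      have e1 : (Function.update (st i) ⟨t, ht⟩ (some s) ⟨t, ht⟩).elim 1 (ξ t) = ξ t s := by
        rw [Function.update_self]; rfl
      have e2 : (st i ⟨t, ht⟩).elim 1 (ξ t) = 1 := by rw [hnone i]; rfl
      rw [e1, e2, one_mul]
      congr 1
      refine Finset.prod_congr rfl fun t' ht' => ?_
      rw [Function.update_of_ne (Finset.ne_of_mem_erase ht')]
    rw [h1]
    ring

end Rep

section tail

variable {V : Type u} {Val : Type v} [Fintype V] [Fintype Val] [DecidableEq V] {a : ℕ}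

/-- The label weights of a field. -/
noncomputable def xi (M : LM V Val a) (ω : Fld a V Val) (t : ℕ) (s : V × Val) : ℝ :=
  ind (val ω t s.1 = some s.2) / M.P s.1 s.2

/-- The slot kernels: linear forms in the label weights of the slot `sg i`. -/
noncomputable def AX (sg : ℕ → ℕ) (co : ℕ → V → V → V × Val → ℝ) (ξ : ℕ → V × Val → ℝ) (i : ℕ) :
    Matrix V V ℝ := Matrix.of fun x y => ∑ s, co i x y s * ξ (sg i) s

theorem AX_apply (sg : ℕ → ℕ) (co : ℕ → V → V → V × Val → ℝ) (ξ : ℕ → V × Val → ℝ) (i : ℕ)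
    (x y : V) : AX sg co ξ i x y = ∑ s, co i x y s * ξ (sg i) s := rfl

theorem rep_TT {C : ℕ → Matrix V V ℝ} (hC : ∀ i x y, 0 ≤ C i x y) {sg : ℕ → ℕ}
    {co : ℕ → V → V → V × Val → ℝ} (hco : ∀ i x y s, 0 ≤ co i x y s) {N : ℕ}
    (hsa : ∀ i, i < N → sg i < a) (hinj : ∀ i i', i < N → i' < N → sg i = sg i' → i = i') :
    ∀ (r i : ℕ), i + r ≤ N → ∀ x y, Rep a (fun t => ∃ i', i ≤ i' ∧ i' < i + r ∧ sg i' = t)
      (fun ξ => TT C (AX sg co ξ) i r x y)
  | 0, i, _, x, y => Rep.const (hC i x y)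
  | r + 1, i, hi, x, y => by
    have ih := rep_TT hC hco hsa hinj r (i + 1) (by omega)
    have e : (fun ξ : ℕ → V × Val → ℝ => TT C (AX sg co ξ) i (r + 1) x y) = fun ξ =>
        ∑ w, ∑ u, ∑ s, (C i x u * co i u w s) *
          (ξ (sg i) s * TT C (AX sg co ξ) (i + 1) r w y) := by
      funext ξ
      rw [TT_succ, Matrix.mul_apply]
      refine Finset.sum_congr rfl fun w _ => ?_
      rw [Matrix.mul_apply, Finset.sum_mul]
      refine Finset.sum_congr rfl fun u _ => ?_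
      rw [AX_apply, Finset.mul_sum, Finset.sum_mul]
      refine Finset.sum_congr rfl fun s _ => ?_
      ring
    rw [e]
    refine Rep.sum fun w => Rep.sum fun u => Rep.sum fun s => Rep.smul
      (mul_nonneg (hC _ _ _) (hco _ _ _ _)) ?_
    refine (Rep.var_mul (sg i) (hsa i (by omega)) ?_ s (ih w y)).mono ?_
    · rintro ⟨i', h1, h2, h3⟩
      have := hinj i' i (by omega) (by omega) h3
      omega
    · rintro t (h | ⟨i', h1, h2, h3⟩)
      · exact ⟨i, le_rfl, by omega, h.symm⟩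
      · exact ⟨i', by omega, by omega, h3⟩

theorem rep_tail (M : LM V Val a) {S : ℕ → Prop} {Φ : (ℕ → V × Val → ℝ) → ℝ} (h : Rep a S Φ)
    (p : ℕ) (L s : ℝ) (hL0 : 0 ≤ L) (hs : 0 < s)
    (hL : ∀ F : ℕ → V × Val → ℝ, (∀ t x, 0 ≤ F t x) → (∀ t, ∑ x, F t x ≤ (p : ℝ)) →
      Φ (fun t x => 1 + F t x / M.P x.1 x.2) ≤ L) :
    Pr M.law (fun ω => s < Φ (xi M ω)) ≤ (L / s) ^ p := by
  obtain ⟨n, c, st, hc, -, hΦ⟩ := h
  have h1 : ∀ ω : Fld a V Val, Φ (xi M ω) = ∑ i, c i * H17.XX M (st i) ω := by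
    intro ω
    rw [hΦ]
    refine Finset.sum_congr rfl fun i _ => ?_
    congr 1
    unfold H17.XX
    refine Finset.prod_congr rfl fun t _ => ?_
    cases hst : st i t with
    | none => simp [TE.H34.sw]
    | some x =>
      simp only [Option.elim, TE.H34.sw, xi]
      unfold val
      rw [dif_pos t.2]
  have h2 : (fun ω : Fld a V Val => s < Φ (xi M ω)) =
      fun ω => s < ∑ i, c i * H17.XX M (st i) ω := by
    funext ω; rw [h1]
  rw [h2]
  refine H17.tail M c hc st p L s hL0 hs ?_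
  intro T hT
  classical
  have h3 := hL (fun t x => if h : t < a then ind (x ∈ T ⟨t, h⟩) else 0) ?_ ?_
  · rw [hΦ] at h3
    refine le_trans (le_of_eq ?_) h3
    refine Finset.sum_congr rfl fun i _ => ?_
    congr 1
    refine Finset.prod_congr rfl fun t _ => ?_
    cases hst : st i t with
    | none => simp [H17.gs]
    | some x =>
      simp only [Option.elim, H17.gs]
      rw [dif_pos t.2]
  · intro t x
    split
    · exact ind_nonneg _
    · exact le_rfl
  · intro t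
    by_cases h : t < a
    · simp only [dif_pos h]
      have h4 : ∑ x, ind (x ∈ T ⟨t, h⟩) = ((T ⟨t, h⟩).card : ℝ) := by
        have h5 : ∀ x, ind (x ∈ T ⟨t, h⟩) = if x ∈ T ⟨t, h⟩ then (1 : ℝ) else 0 := by
          intro x
          by_cases hx : x ∈ T ⟨t, h⟩
          · rw [if_pos hx, ind_of hx]
          · rw [if_neg hx, ind_not hx]
        rw [Finset.sum_congr rfl fun x _ => h5 x, Finset.sum_ite_mem, Finset.univ_inter,
          Finset.sum_const, nsmul_eq_mul, mul_one]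
      rw [h4]
      exact_mod_cast hT _
    · simp only [dif_neg h, Finset.sum_const_zero]
      exact Nat.cast_nonneg _

/-- Tail bound for a sequence of slots. -/
theorem seq_tail (M : LM V Val a) {C : ℕ → Matrix V V ℝ} (hC : ∀ i x y, 0 ≤ C i x y) {sg : ℕ → ℕ}
    {co : ℕ → V → V → V × Val → ℝ} (hco : ∀ i x y s, 0 ≤ co i x y s) {N : ℕ}
    (hsa : ∀ i, i < N → sg i < a) (hinj : ∀ i i', i < N → i' < N → sg i = sg i' → i = i')
    (hcs : ∀ i s, i < N → ∑ x, ∑ y, co i x y s ≤ M.H0 * M.P s.1 s.2)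
    {E : ℕ → ℕ → ℝ} (hE : ∀ i r, 0 ≤ E i r)
    (hw : ∀ i r x y, i + r ≤ N → TT C (AX sg co (fun _ _ => 1)) i r x y ≤ E i r)
    (p : ℕ) (s : ℝ) (hs : 0 < s) (x y : V) (F0 : ℝ)
    (hF0 : TT C (AX sg co (fun _ _ => 1)) 0 N x y ≤ F0) :
    Pr M.law (fun ω => s < TT C (AX sg co (xi M ω)) 0 N x y) ≤
      ((F0 + ∑ t ∈ Finset.range N, SW E (p * M.H0) (t + 1) 0 N) / s) ^ p := by
  have hH0 : 0 ≤ M.H0 := le_trans zero_le_one M.hH0
  have hθ : (0 : ℝ) ≤ p * M.H0 := mul_nonneg (Nat.cast_nonneg _) hH0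
  have hA1 : ∀ i x y, 0 ≤ AX sg co (fun _ _ => 1) i x y := by
    intro i x y
    rw [AX_apply]
    exact Finset.sum_nonneg fun s _ => mul_nonneg (hco _ _ _ _) zero_le_one
  have h0 := rep_TT (a := a) hC hco hsa hinj N 0 (by omega) x y
  refine rep_tail M h0 p _ s ?_ hs ?_
  · refine add_nonneg (le_trans (TT_nn hC hA1 N 0 x y) hF0) ?_
    exact Finset.sum_nonneg fun t _ => SW_nonneg hE hθ _ _ _
  · intro F hF hFs
    let G : ℕ → Matrix V V ℝ := fun i => AX sg co (fun t z => F t z / M.P z.1 z.2) i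
    have hG : ∀ i x y, 0 ≤ G i x y := by
      intro i x y
      show 0 ≤ AX sg co (fun t z => F t z / M.P z.1 z.2) i x y
      rw [AX_apply]
      exact Finset.sum_nonneg fun s _ => mul_nonneg (hco _ _ _ _)
        (div_nonneg (hF _ _) (M.hP0 _ _))
    have hGs : ∀ i, i < N → ∑ x, ∑ y, G i x y ≤ p * M.H0 := by
      intro i hi
      have h1 : ∑ x, ∑ y, G i x y = ∑ z : V × Val, (∑ x, ∑ y, co i x y z) *
          (F (sg i) z / M.P z.1 z.2) := by
        show ∑ x, ∑ y, ∑ z, co i x y z * (F (sg i) z / M.P z.1 z.2) = _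
        have h2 : ∀ x, ∑ y, ∑ z, co i x y z * (F (sg i) z / M.P z.1 z.2) =
            ∑ z, (∑ y, co i x y z) * (F (sg i) z / M.P z.1 z.2) := by
          intro x
          rw [Finset.sum_comm]
          exact Finset.sum_congr rfl fun z _ => by rw [Finset.sum_mul]
        rw [Finset.sum_congr rfl fun x _ => h2 x, Finset.sum_comm]
        exact Finset.sum_congr rfl fun z _ => by rw [Finset.sum_mul]
      rw [h1]
      calc ∑ z : V × Val, (∑ x, ∑ y, co i x y z) * (F (sg i) z / M.P z.1 z.2)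
          ≤ ∑ z : V × Val, M.H0 * F (sg i) z := by
            refine Finset.sum_le_sum fun z _ => ?_
            rcases (M.hP0 z.1 z.2).eq_or_lt with hP | hP
            · rw [← hP, div_zero, mul_zero]
              exact mul_nonneg hH0 (hF _ _)
            · calc (∑ x, ∑ y, co i x y z) * (F (sg i) z / M.P z.1 z.2)
                  ≤ (M.H0 * M.P z.1 z.2) * (F (sg i) z / M.P z.1 z.2) :=
                    mul_le_mul_of_nonneg_right (hcs i z hi) (div_nonneg (hF _ _) hP.le)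
                _ = _ := by field_simp
        _ = (∑ z, F (sg i) z) * M.H0 := by rw [← Finset.mul_sum]; ring
        _ ≤ _ := mul_le_mul_of_nonneg_right (hFs _) hH0
    have hAX : AX sg co (fun t z => 1 + F t z / M.P z.1 z.2) =
        fun t => AX sg co (fun _ _ => 1) t + G t := by
      funext t
      ext u w
      show ∑ z, co t u w z * (1 + F (sg t) z / M.P z.1 z.2) =
        ∑ z, co t u w z * 1 + ∑ z, co t u w z * (F (sg t) z / M.P z.1 z.2)
      rw [← Finset.sum_add_distrib]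
      exact Finset.sum_congr rfl fun z _ => by ring
    rw [hAX]
    exact (TT_le hC hA1 hG hθ hE hGs hw N 0 (by omega) x y).trans
      (add_le_add hF0 le_rfl)

end tail

end Pool.Agent.Lib.MP_688fd0_co.TF.H58
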