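import Pool.Agent.Lib.MP_688fd0_co.TF.H58.Seq

/-!
# Theorem F: the sum of the pinned products of window bounds
-/

namespace Pool.Agent.Lib.MP_688fd0_co.TF.H58

open Pool.Agent.Lib.MP_688fd0_co.TE
open Pool.Agent.Lib.MP_688fd0_co.TE.H92 (SW SW_nonneg SW_le gp)

universe u

/-- The connecting kernel `i` is a single sparse letter. -/
def bad (τ : Bool) (pos ent : ℕ → ℕ) (i : ℕ) : Prop :=
  τ = true ∧ pos i % 3 = 1 ∧ ent i = pos i + 1

/-- Positions of a sequence of slots: the connecting kernel `i` goes from the position `pos i` to the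
position `ent i`. -/
structure PosH (τ : Bool) (k N : ℕ) (pos ent : ℕ → ℕ) : Prop where
  lt : ∀ i, i ≤ N → pos i < ent i
  le1 : ∀ i, i < N → ent i ≤ pos (i + 1)
  le2 : ∀ i, i < N → pos (i + 1) ≤ ent i + 1
  b0 : ¬ bad τ pos ent 0
  bN : ¬ bad τ pos ent N
  bb : ∀ i, i < N → bad τ pos ent i → ¬ bad τ pos ent (i + 1)
  len : 6 * k + pos 0 ≤ ent N + 40

/-- The windows. -/
def wl (pos ent : ℕ → ℕ) : ℕ → List ℕ → ℕ → List (ℕ × ℕ)
  | i, [], r => [(pos i, ent (i + r) - pos i)]
  | i, t :: l, r => (pos i, ent (i + t) - pos i) :: wl pos ent (i + t + 1) l r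

theorem gp_wl (f : ℕ → ℕ → ℝ) (pos ent : ℕ → ℕ) : ∀ (l : List ℕ) (i r : ℕ),
    gp (fun i r => f (pos i) (ent (i + r) - pos i)) i l r =
      ((wl pos ent i l r).map (fun p => f p.1 p.2)).prod
  | [], i, r => by simp [gp, wl]
  | t :: l, i, r => by
    simp only [gp, wl, List.map_cons, List.prod_cons]
    rw [gp_wl f pos ent l]

theorem length_wl (pos ent : ℕ → ℕ) : ∀ (l : List ℕ) (i r : ℕ),
    (wl pos ent i l r).length = l.length + 1
  | [], i, r => rfl
  | t :: l, i, r => by
    simp only [wl, List.length_cons]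
    rw [length_wl pos ent l]

variable {τ : Bool} {k N : ℕ} {pos ent : ℕ → ℕ}

theorem PosH.ent_add (h : PosH τ k N pos ent) (i : ℕ) : ∀ t, i + t ≤ N → ent i + t ≤ ent (i + t)
  | 0, _ => le_rfl
  | t + 1, ht => by
    have h1 := h.ent_add i t (by omega)
    have h2 := h.le1 (i + t) (by omega)
    have h3 := h.lt (i + t + 1) (by omega)
    have e : i + (t + 1) = i + t + 1 := by omega
    rw [e]; omega

theorem PosH.sum_wl (h : PosH τ k N pos ent) : ∀ (l : List ℕ) (i r : ℕ),
    i + (l.sum + l.length + r) = N →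
    ent N ≤ pos i + ((wl pos ent i l r).map Prod.snd).sum + l.length
  | [], i, r, hN => by
    simp only [wl, List.map_cons, List.map_nil, List.sum_cons, List.sum_nil, List.length_nil,
      add_zero, zero_add] at hN ⊢
    rw [hN]; omega
  | t :: l, i, r, hN => by
    have hsum : (t :: l).sum + (t :: l).length + r = t + 1 + (l.sum + l.length + r) := by
      simp only [List.sum_cons, List.length_cons]; ring
    rw [hsum] at hN
    have h1 := h.sum_wl l (i + t + 1) r (by omega)
    have h2 := h.le2 (i + t) (by omega)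
    simp only [wl, List.map_cons, List.sum_cons, List.length_cons]
    omega

theorem PosH.spw_iff (h : PosH τ k N pos ent) {i t : ℕ} (hi : i + t ≤ N)
    (hs : spw τ (pos i, ent (i + t) - pos i)) : t = 0 ∧ bad τ pos ent i := by
  have h1 := h.ent_add i t hi
  have h2 := h.lt i (by omega)
  rcases hs with hs | ⟨hs1, hs2, hs3⟩
  · simp only at hs; omega
  · simp only at hs1 hs2
    have ht : t = 0 := by omega
    subst ht
    simp only [add_zero] at hs1
    exact ⟨rfl, hs3, hs2, by omega⟩

open scoped Classical in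
/-- Number of special windows. -/
noncomputable def cnt (τ : Bool) (ws : List (ℕ × ℕ)) : ℕ := (ws.filter (fun p => spw τ p)).length

theorem PosH.cnt_le (h : PosH τ k N pos ent) : ∀ (l : List ℕ) (i r : ℕ),
    i + (l.sum + l.length + r) = N →
    cnt τ (wl pos ent i l r) * 2 ≤ l.length + 1 ∧
      (¬ bad τ pos ent i → cnt τ (wl pos ent i l r) * 2 ≤ l.length)
  | [], i, r, hN => by
    simp only [List.sum_nil, List.length_nil, zero_add] at hN
    have h1 : ¬ spw τ (pos i, ent (i + r) - pos i) := by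
      intro hs
      obtain ⟨hr, hb⟩ := h.spw_iff (by omega) hs
      subst hr
      have : i = N := by omega
      subst this
      exact h.bN hb
    have h2 : cnt τ (wl pos ent i [] r) = 0 := by
      unfold cnt wl
      rw [List.filter_cons_of_neg (by simpa using h1)]
      rfl
    rw [h2]
    exact ⟨by omega, fun _ => by omega⟩
  | t :: l, i, r, hN => by
    have hsum : (t :: l).sum + (t :: l).length + r = t + 1 + (l.sum + l.length + r) := by
      simp only [List.sum_cons, List.length_cons]; ring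
    rw [hsum] at hN
    obtain ⟨h1, h2⟩ := h.cnt_le l (i + t + 1) r (by omega)
    by_cases hs : spw τ (pos i, ent (i + t) - pos i)
    · obtain ⟨ht, hb⟩ := h.spw_iff (by omega) hs
      have hc : cnt τ (wl pos ent i (t :: l) r) = cnt τ (wl pos ent (i + t + 1) l r) + 1 := by
        show ((_ :: wl pos ent (i + t + 1) l r).filter _).length = _
        rw [List.filter_cons_of_pos (by simpa using hs), List.length_cons]
        rfl
      rw [hc]
      subst ht
      have h3 := h2 (by simpa using h.bb i (by omega) hb)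
      refine ⟨by simp only [List.length_cons]; omega, fun hnb => absurd hb hnb⟩
    · have hc : cnt τ (wl pos ent i (t :: l) r) = cnt τ (wl pos ent (i + t + 1) l r) := by
        show ((_ :: wl pos ent (i + t + 1) l r).filter _).length = _
        rw [List.filter_cons_of_neg (by simpa using hs)]
        rfl
      rw [hc]
      simp only [List.length_cons]
      exact ⟨by omega, fun _ => by omega⟩

theorem sublist_cnt {ws l : List (ℕ × ℕ)} (hl : l.Sublist ws) (hs : ∀ p ∈ l, spw τ p) :
    l.length ≤ cnt τ ws := by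
  classical
  unfold cnt
  have h1 : l.filter (fun p => decide (spw τ p)) = l := by
    rw [List.filter_eq_self]
    intro p hp
    simpa using hs p hp
  have h2 := (hl.filter (fun p => decide (spw τ p))).length_le
  rw [h1] at h2
  convert h2

section main

variable {G : Type u} [Group G] [Fintype G] [DecidableEq G]

theorem b_pos (hN : NUMF_S.{u}) (c : Ctx G) : 1 ≤ c.b := by
  obtain ⟨h1, -, -, -, -, -, -, h8, -⟩ := hN G c
  have hX : (1 : ℝ) ≤ c.X := le_trans (by norm_num) h1
  exact le_trans (one_le_pow₀ hX) h8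

theorem gs_nonneg (hQ : QQF_S.{u}) (c : Ctx G) (τ : Bool) (i n : ℕ) : 0 ≤ c.gs τ i n := by
  unfold Ctx.gs
  split
  · exact ((hQ G c τ).2.1 _).le
  · split
    · exact zero_le_one
    · exact div_nonneg zero_le_one (Nat.cast_nonneg _)

/-- The products of the window bounds. -/
theorem gp_le_pos (hN : NUMF_S.{u}) (hM : MRG_S.{u}) (c : Ctx G) {τ : Bool} {N : ℕ}
    {pos ent : ℕ → ℕ} (h : PosH τ c.k N pos ent) (l : List ℕ) (r : ℕ) (hl : 1 ≤ l.length)
    (hlr : l.sum + l.length + r = N) :
    gp (fun i r => c.gs τ (pos i) (ent (i + r) - pos i)) 0 l r ≤ 2 * c.q τ / c.b1 ^ l.length := by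
  rw [gp_wl (fun i n => c.gs τ i n)]
  have h1 := (hM G c τ (wl pos ent 0 l r) l.length (l.length / 2) (length_wl _ _ _ _ _) hl (by
      intro l' hl' hs
      have h2 := sublist_cnt hl' hs
      have h3 := (h.cnt_le l 0 r (by omega)).2 h.b0
      omega) (by omega)).1 (by
      have h2 := h.sum_wl l 0 r (by omega)
      have h3 := h.len
      omega)
  refine h1.trans ?_
  have hb := b_pos hN c
  have hq : 0 ≤ c.q τ := ((hN G c).2.2.2.2.2.1 τ).le
  have hb0 : (0 : ℝ) < c.b := lt_of_lt_of_le one_pos hb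
  have h2 : c.b1 ^ l.length ≤ c.b ^ (((l.length : ℝ) - (l.length / 2 : ℕ)) / 2) := by
    unfold Ctx.b1
    rw [← Real.rpow_natCast, ← Real.rpow_mul hb0.le]
    refine Real.rpow_le_rpow_of_exponent_le hb ?_
    have h3 : ((l.length / 2 : ℕ) : ℝ) ≤ (l.length : ℝ) / 2 := Nat.cast_div_le
    linarith
  refine div_le_div_of_nonneg_left (by linarith) ?_ h2
  exact pow_pos (Real.rpow_pos_of_pos hb0 _) _

/-- Total of the pinned sums. -/
theorem sw_sum (hQ : QQF_S.{u}) (hN : NUMF_S.{u}) (hM : MRG_S.{u}) (c : Ctx G) {τ : Bool} {N : ℕ}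
    {pos ent : ℕ → ℕ} (h : PosH τ c.k N pos ent) {θ : ℝ} (hθ : 0 ≤ θ)
    (hsm : θ * N / c.b1 ≤ 1 / 2) :
    ∑ t ∈ Finset.range N, SW (fun i r => c.gs τ (pos i) (ent (i + r) - pos i)) θ (t + 1) 0 N ≤
      4 * (θ * N / c.b1) * c.q τ := by
  have hq : 0 ≤ c.q τ := ((hN G c).2.2.2.2.2.1 τ).le
  have hb1 : 0 < c.b1 := Real.rpow_pos_of_pos (lt_of_lt_of_le one_pos (b_pos hN c)) _
  have h0 : 0 ≤ θ * N / c.b1 := div_nonneg (mul_nonneg hθ (Nat.cast_nonneg _)) hb1.le
  set z := θ * N / c.b1 with hz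
  have h1 : ∀ t : ℕ, SW (fun i r => c.gs τ (pos i) (ent (i + r) - pos i)) θ (t + 1) 0 N ≤
      z ^ (t + 1) * (2 * c.q τ) := by
    intro t
    have h2 := SW_le (E := fun i r => c.gs τ (pos i) (ent (i + r) - pos i))
      (fun i r => gs_nonneg hQ c τ _ _) hθ N (t + 1) 0 N 1 (2 * c.q τ / c.b1 ^ (t + 1)) le_rfl
      zero_le_one (div_nonneg (by linarith) (pow_pos hb1 _).le) (by
        intro l r' hl hlr
        rw [one_mul, ← hl]
        exact gp_le_pos hN hM c h l r' (by omega) hlr)
    rw [one_mul] at h2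
    refine h2.trans (le_of_eq ?_)
    rw [hz, div_pow]
    field_simp
  have h3 : ∀ N : ℕ, ∑ s ∈ Finset.range N, z ^ (s + 1) ≤ 2 * z - z ^ (N + 1) * 2 := by
    intro N
    induction N with
    | zero => simp; linarith
    | succ N ih =>
      rw [Finset.sum_range_succ]
      have h4 : z ^ (N + 1 + 1) = z ^ (N + 1) * z := pow_succ _ _
      have h5 : 0 ≤ z ^ (N + 1) := pow_nonneg h0 _
      have h6 : z ^ (N + 1) * z ≤ z ^ (N + 1) * (1 / 2) := mul_le_mul_of_nonneg_left hsm h5
      rw [h4]
      linarith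
  have h7 := h3 N
  have h8 : 0 ≤ z ^ (N + 1) := pow_nonneg h0 _
  calc ∑ t ∈ Finset.range N, SW (fun i r => c.gs τ (pos i) (ent (i + r) - pos i)) θ (t + 1) 0 N
      ≤ ∑ t ∈ Finset.range N, z ^ (t + 1) * (2 * c.q τ) := Finset.sum_le_sum fun t _ => h1 t
    _ = (∑ t ∈ Finset.range N, z ^ (t + 1)) * (2 * c.q τ) := by rw [Finset.sum_mul]
    _ ≤ (2 * z) * (2 * c.q τ) := mul_le_mul_of_nonneg_right (by linarith) (by linarith)
    _ = _ := by ring

end main

end Pool.Agent.Lib.MP_688fd0_co.TF.H58
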