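import Pool.Agent.Lib.MP_688fd0_co.TF.H58.SeqB
import Pool.Agent.Lib.MP_688fd0_co.TE.H17.Basic

/-!
# Theorem F: chains of slots with positions, concatenation, tail bound
-/

namespace Pool.Agent.Lib.MP_688fd0_co.TF.H58

open Pool.Agent.Lib.MP_688fd0_co.TE
open Pool.Agent.Lib.MP_688fd0_co.TE.H92 (SW SW_nonneg SW_le gp)

universe u v

/-- Concatenation of two sequences. -/
def ct {α : Type*} (n : ℕ) (f g : ℕ → α) (i : ℕ) : α := if i < n then f i else g (i - n)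

theorem ct_lt {α : Type*} {n : ℕ} {f g : ℕ → α} {i : ℕ} (h : i < n) : ct n f g i = f i := if_pos h
theorem ct_ge {α : Type*} {n : ℕ} {f g : ℕ → α} {i : ℕ} (h : n ≤ i) : ct n f g i = g (i - n) :=
  if_neg (by omega)

/-- Concatenation of two sequences of kernels, `J` at the junction. -/
def cc3 {α : Type*} (n : ℕ) (f : ℕ → α) (J : α) (g : ℕ → α) (i : ℕ) : α :=
  if i < n then f i else if i = n then J else g (i - n)

theorem cc3_lt {α : Type*} {n : ℕ} {f g : ℕ → α} {J : α} {i : ℕ} (h : i < n) :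
    cc3 n f J g i = f i := if_pos h
theorem cc3_eq {α : Type*} {n : ℕ} {f g : ℕ → α} {J : α} : cc3 n f J g n = J := by
  unfold cc3; rw [if_neg (by omega), if_pos rfl]
theorem cc3_gt {α : Type*} {n : ℕ} {f g : ℕ → α} {J : α} {i : ℕ} (h : n < i) :
    cc3 n f J g i = g (i - n) := by
  unfold cc3; rw [if_neg (by omega), if_neg (by omega)]

section cat

variable {V : Type u} [Fintype V] [DecidableEq V]

theorem TT_cat (C1 A1 C2 A2 : ℕ → Matrix V V ℝ) (D : Matrix V V ℝ) (n1 n2 : ℕ) : ∀ (r i : ℕ),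
    i + r = n1 → TT (cc3 n1 C1 (C1 n1 * D * C2 0) C2) (ct n1 A1 A2) i (r + n2) =
      TT C1 A1 i r * D * TT C2 A2 0 n2
  | 0, i, h => by
    have hi : i = n1 := by omega
    subst hi
    rw [zero_add, TT_zero]
    cases n2 with
    | zero => rw [TT_zero, TT_zero, cc3_eq]
    | succ m =>
      rw [TT_succ, TT_succ, cc3_eq, ct_ge le_rfl]
      have h1 : TT (cc3 i C1 (C1 i * D * C2 0) C2) (ct i A1 A2) (i + 1) m = TT C2 A2 (0 + 1) m := by
        have h2 := TT_shift (C := cc3 i C1 (C1 i * D * C2 0) C2) (A := ct i A1 A2) i m 1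
        have e : 1 + i = i + 1 := by omega
        rw [e] at h2
        rw [← h2]
        refine TT_congr m 1 (fun t h3 _ => ?_) (fun t h3 _ => ?_)
        · show cc3 i C1 (C1 i * D * C2 0) C2 (t + i) = C2 t
          rw [cc3_gt (by omega)]
          congr 1; omega
        · show ct i A1 A2 (t + i) = A2 t
          rw [ct_ge (by omega)]
          congr 1; omega
      rw [h1, Nat.sub_self]
      simp only [Matrix.mul_assoc]
  | r + 1, i, h => by
    have e : r + 1 + n2 = (r + n2) + 1 := by omega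
    rw [e, TT_succ, TT_succ, TT_cat C1 A1 C2 A2 D n1 n2 r (i + 1) (by omega),
      cc3_lt (by omega), ct_lt (by omega)]
    simp only [Matrix.mul_assoc]

end cat

variable {G : Type u} [Group G] [Fintype G] [DecidableEq G] {Val : Type v} [Fintype Val] {a : ℕ}

/-- A chain of `n` slots with positions. -/
structure Ch (c : Ctx G) (τ : Bool) (M : LM G Val a) (n : ℕ) (C : ℕ → Matrix G G ℝ) (sg : ℕ → ℕ)
    (co : ℕ → G → G → G × Val → ℝ) (pos ent : ℕ → ℕ) : Prop where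
  C0 : ∀ i x y, 0 ≤ C i x y
  o0 : ∀ i x y s, 0 ≤ co i x y s
  cs : ∀ i s, i < n → ∑ x, ∑ y, co i x y s ≤ M.H0 * M.P s.1 s.2
  kC : ∀ i, i ≤ n → ∀ x y, C i x y ≤ c.K τ (pos i) (ent i - pos i) x y
  kA : ∀ i, i < n → ∀ x y, AX sg co (fun _ _ => 1) i x y ≤ c.K τ (ent i) (pos (i + 1) - ent i) x y
  lt : ∀ i, i ≤ n → pos i < ent i
  le1 : ∀ i, i < n → ent i ≤ pos (i + 1)
  le2 : ∀ i, i < n → pos (i + 1) ≤ ent i + 1
  sa : ∀ i, i < n → sg i < a

section chain

variable {c : Ctx G} {τ : Bool} {M : LM G Val a} {n : ℕ} {C : ℕ → Matrix G G ℝ} {sg : ℕ → ℕ}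
  {co : ℕ → G → G → G × Val → ℝ} {pos ent : ℕ → ℕ}

theorem K_nn (hK : KERF_S.{u}) (c : Ctx G) (τ : Bool) (i n : ℕ) (x y : G) : 0 ≤ c.K τ i n x y :=
  ((hK G c τ).1 i n).1.1 x y

theorem Ch.A0 (h : Ch c τ M n C sg co pos ent) (i : ℕ) (x y : G) :
    0 ≤ AX sg co (fun _ _ => 1) i x y := by
  rw [AX_apply]
  exact Finset.sum_nonneg fun s _ => mul_nonneg (h.o0 _ _ _ _) zero_le_one

theorem Ch.ent_add (h : Ch c τ M n C sg co pos ent) (i : ℕ) : ∀ t, i + t ≤ n →
    ent i + t ≤ ent (i + t)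
  | 0, _ => le_rfl
  | t + 1, ht => by
    have h1 := h.ent_add i t (by omega)
    have h2 := h.le1 (i + t) (by omega)
    have h3 := h.lt (i + t + 1) (by omega)
    have e : i + (t + 1) = i + t + 1 := by omega
    rw [e]; omega

/-- Windows. -/
theorem Ch.win (hK : KERF_S.{u}) (h : Ch c τ M n C sg co pos ent) : ∀ (r i : ℕ), i + r ≤ n →
    ∀ x y, TT C (AX sg co (fun _ _ => 1)) i r x y ≤ c.K τ (pos i) (ent (i + r) - pos i) x y
  | 0, i, hi, x, y => h.kC i (by omega) x y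
  | r + 1, i, hi, x, y => by
    have hc := (hK G c τ).2.1
    have h0 := h.lt i (by omega)
    have h1 := h.le1 i (by omega)
    have h2 := h.lt (i + 1) (by omega)
    have h3 := h.ent_add (i + 1) r (by omega)
    have e : i + (r + 1) = i + 1 + r := by omega
    rw [e]
    have e1 : ent (i + 1 + r) - pos i = (ent i - pos i) + ((pos (i + 1) - ent i) +
        (ent (i + 1 + r) - pos (i + 1))) := by omega
    rw [e1, hc, hc]
    have e2 : pos i + (ent i - pos i) = ent i := by omega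
    have e3 : ent i + (pos (i + 1) - ent i) = pos (i + 1) := by omega
    rw [e2, e3, ← Matrix.mul_assoc, TT_succ]
    exact mul_mono (mul_nn (h.C0 i) (h.A0 i)) (TT_nn h.C0 h.A0 r (i + 1))
      (mul_mono (h.C0 i) (h.A0 i) (h.kC i (by omega)) (h.kA i (by omega)))
      (h.win hK r (i + 1) (by omega)) x y

theorem diag_nn {φ : G → ℝ} (hφ : ∀ x, 0 ≤ φ x ∧ φ x ≤ 1) (x y : G) :
    0 ≤ Matrix.diagonal φ x y := by
  rw [Matrix.diagonal_apply]
  split
  · exact (hφ x).1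
  · exact le_rfl

theorem mul_diag_mul (P Q : Matrix G G ℝ) (φ : G → ℝ) (x y : G) :
    (P * Matrix.diagonal φ * Q) x y = ∑ z, φ z * (P x z * Q z y) := by
  rw [Matrix.mul_apply]
  refine Finset.sum_congr rfl fun z _ => ?_
  rw [Matrix.mul_diagonal]; ring

theorem Ch.cat (hK : KERF_S.{u}) {n1 n2 : ℕ} {C1 C2 : ℕ → Matrix G G ℝ} {sg1 sg2 : ℕ → ℕ}
    {co1 co2 : ℕ → G → G → G × Val → ℝ} {pos1 pos2 ent1 ent2 : ℕ → ℕ}
    (h1 : Ch c τ M n1 C1 sg1 co1 pos1 ent1) (h2 : Ch c τ M n2 C2 sg2 co2 pos2 ent2)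
    (hj : ent1 n1 = pos2 0) {φ : G → ℝ} (hφ : ∀ x, 0 ≤ φ x ∧ φ x ≤ 1) :
    Ch c τ M (n1 + n2) (cc3 n1 C1 (C1 n1 * Matrix.diagonal φ * C2 0) C2) (ct n1 sg1 sg2)
      (ct n1 co1 co2) (cc3 n1 pos1 (pos1 n1) pos2) (ct n1 ent1 ent2) where
  C0 := by
    intro i x y
    rcases lt_trichotomy i n1 with h | h | h
    · rw [cc3_lt h]; exact h1.C0 _ _ _
    · subst h
      rw [cc3_eq]
      exact mul_nn (mul_nn (h1.C0 _) (diag_nn hφ)) (h2.C0 _) x y
    · rw [cc3_gt h]; exact h2.C0 _ _ _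
  o0 := by
    intro i x y s
    rcases lt_or_ge i n1 with h | h
    · rw [ct_lt h]; exact h1.o0 _ _ _ _
    · rw [ct_ge h]; exact h2.o0 _ _ _ _
  cs := by
    intro i s hi
    rcases lt_or_ge i n1 with h | h
    · rw [ct_lt h]; exact h1.cs _ _ h
    · rw [ct_ge h]; exact h2.cs _ _ (by omega)
  kC := by
    intro i hi x y
    rcases lt_trichotomy i n1 with h | h | h
    · rw [cc3_lt h, cc3_lt h, ct_lt h]; exact h1.kC i h.le x y
    · subst h
      rw [cc3_eq, cc3_eq, ct_ge le_rfl, Nat.sub_self, mul_diag_mul]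
      have l1 := h1.lt i le_rfl
      have l2 := h2.lt 0 (by omega)
      have e : ent2 0 - pos1 i = (ent1 i - pos1 i) + (ent2 0 - pos2 0) := by omega
      rw [e, (hK G c τ).2.1, Matrix.mul_apply]
      have e2 : pos1 i + (ent1 i - pos1 i) = pos2 0 := by omega
      rw [e2]
      refine Finset.sum_le_sum fun z _ => ?_
      have a1 := h1.kC i le_rfl x z
      have a2 := h2.kC 0 (by omega) z y
      have b1 := h1.C0 i x z
      have b2 := h2.C0 0 z y
      calc φ z * (C1 i x z * C2 0 z y) ≤ 1 * (C1 i x z * C2 0 z y) :=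
            mul_le_mul_of_nonneg_right (hφ z).2 (mul_nonneg b1 b2)
        _ = C1 i x z * C2 0 z y := one_mul _
        _ ≤ _ := mul_le_mul a1 a2 b2 (le_trans b1 a1)
    · rw [cc3_gt h, cc3_gt h, ct_ge h.le]; exact h2.kC (i - n1) (by omega) x y
  kA := by
    intro i hi x y
    rcases lt_or_ge i n1 with h | h
    · have e : AX (ct n1 sg1 sg2) (ct n1 co1 co2) (fun _ _ => 1) i x y =
          AX sg1 co1 (fun _ _ => 1) i x y := by
        rw [AX_apply, AX_apply, ct_lt h]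
      have e2 : cc3 n1 pos1 (pos1 n1) pos2 (i + 1) = pos1 (i + 1) := by
        rcases (show i + 1 < n1 ∨ i + 1 = n1 by omega) with h' | h'
        · rw [cc3_lt h']
        · rw [h', cc3_eq]
      rw [e, e2, ct_lt h]
      exact h1.kA i h x y
    · have e : AX (ct n1 sg1 sg2) (ct n1 co1 co2) (fun _ _ => 1) i x y =
          AX sg2 co2 (fun _ _ => 1) (i - n1) x y := by
        rw [AX_apply, AX_apply, ct_ge h]
      have e2 : i + 1 - n1 = i - n1 + 1 := by omega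
      rw [e, cc3_gt (by omega), ct_ge h, e2]
      exact h2.kA (i - n1) (by omega) x y
  lt := by
    intro i hi
    rcases lt_trichotomy i n1 with h | h | h
    · rw [cc3_lt h, ct_lt h]; exact h1.lt i h.le
    · subst h
      rw [cc3_eq, ct_ge le_rfl, Nat.sub_self]
      have l1 := h1.lt i le_rfl
      have l2 := h2.lt 0 (by omega)
      omega
    · rw [cc3_gt h, ct_ge h.le]; exact h2.lt (i - n1) (by omega)
  le1 := by
    intro i hi
    rcases lt_or_ge i n1 with h | h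
    · have e2 : cc3 n1 pos1 (pos1 n1) pos2 (i + 1) = pos1 (i + 1) := by
        rcases (show i + 1 < n1 ∨ i + 1 = n1 by omega) with h' | h'
        · rw [cc3_lt h']
        · rw [h', cc3_eq]
      rw [e2, ct_lt h]
      exact h1.le1 i h
    · have e2 : i + 1 - n1 = i - n1 + 1 := by omega
      rw [cc3_gt (by omega), ct_ge h, e2]
      exact h2.le1 (i - n1) (by omega)
  le2 := by
    intro i hi
    rcases lt_or_ge i n1 with h | h
    · have e2 : cc3 n1 pos1 (pos1 n1) pos2 (i + 1) = pos1 (i + 1) := by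
        rcases (show i + 1 < n1 ∨ i + 1 = n1 by omega) with h' | h'
        · rw [cc3_lt h']
        · rw [h', cc3_eq]
      rw [e2, ct_lt h]
      exact h1.le2 i h
    · have e2 : i + 1 - n1 = i - n1 + 1 := by omega
      rw [cc3_gt (by omega), ct_ge h, e2]
      exact h2.le2 (i - n1) (by omega)
  sa := by
    intro i hi
    rcases lt_or_ge i n1 with h | h
    · rw [ct_lt h]; exact h1.sa i h
    · rw [ct_ge h]; exact h2.sa (i - n1) (by omega)

theorem AX_ct (n1 : ℕ) (sg1 sg2 : ℕ → ℕ) (co1 co2 : ℕ → G → G → G × Val → ℝ)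
    (ξ : ℕ → G × Val → ℝ) : AX (ct n1 sg1 sg2) (ct n1 co1 co2) ξ =
      ct n1 (AX sg1 co1 ξ) (AX sg2 co2 ξ) := by
  funext i
  ext x y
  rcases lt_or_ge i n1 with h | h
  · rw [AX_apply, ct_lt h, ct_lt h, ct_lt h, AX_apply]
  · rw [AX_apply, ct_ge h, ct_ge h, ct_ge h, AX_apply]

end chain

/-! ### Numbers -/

section num

variable (hN : NUMF_S.{u}) (c : Ctx G)

include hN in
theorem num_k (c : Ctx G) : (10 ^ 6 * (c.k : ℝ)) ^ 2 ≤ c.X ∧ 1 ≤ c.X := by
  obtain ⟨h1, h2, -, h4, -⟩ := hN G c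
  have hX : (1 : ℝ) ≤ c.X := le_trans (by norm_num) h1
  refine ⟨le_trans ?_ h2, hX⟩
  have hk : (1 : ℝ) ≤ c.k := by
    have : (1 : ℕ) ≤ c.k := by omega
    exact_mod_cast this
  have h3 : (1 : ℝ) ≤ 10 ^ 6 * c.k := by linarith
  exact pow_le_pow_right₀ h3 (by norm_num)

/-- The exponent of the moments. -/
noncomputable def pp (c : Ctx G) : ℕ := ⌈20 * Real.log (Fintype.card G)⌉₊

include hN in
theorem pp_le (c : Ctx G) : (pp c : ℝ) ≤ 20 * c.k + 1 := by
  obtain ⟨-, -, -, -, h5, -⟩ := hN G c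
  have h0 : (0 : ℝ) ≤ 20 * Real.log (Fintype.card G) := by
    have : (0 : ℝ) ≤ Real.log (Fintype.card G) := Real.log_natCast_nonneg _
    linarith
  have h1 := (Nat.ceil_lt_add_one h0).le
  unfold pp
  linarith

theorem exp_tail (c : Ctx G) {z : ℝ} (h0 : 0 ≤ z) (hz : z ≤ 3 / 10) :
    z ^ pp c ≤ 1 / (Fintype.card G : ℝ) ^ 20 := by
  have hn : (0 : ℝ) < Fintype.card G := by exact_mod_cast Fintype.card_pos
  have h1 : (3 / 10 : ℝ) ≤ Real.exp (-1) := by
    rw [Real.exp_neg, ← one_div, le_div_iff₀ (Real.exp_pos _)]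
    have := Real.exp_one_lt_d9
    linarith
  have h2 : 20 * Real.log (Fintype.card G) ≤ (pp c : ℝ) := Nat.le_ceil _
  calc z ^ pp c ≤ (Real.exp (-1)) ^ pp c := pow_le_pow_left₀ h0 (hz.trans h1) _
    _ = Real.exp (-(pp c : ℝ)) := by rw [← Real.exp_nat_mul]; congr 1; ring
    _ ≤ Real.exp (-(20 * Real.log (Fintype.card G))) := Real.exp_le_exp.2 (by linarith)
    _ = 1 / (Fintype.card G : ℝ) ^ 20 := by
      rw [Real.exp_neg, one_div]
      congr 1
      have : (20 : ℝ) * Real.log (Fintype.card G) = ((20 : ℕ) : ℝ) * Real.log (Fintype.card G) := by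
        norm_num
      rw [this, Real.exp_nat_mul, Real.exp_log hn]

include hN in
theorem num_theta (c : Ctx G) {H0 : ℝ} (h0 : 0 ≤ H0) (hH : H0 ≤ 2 * c.X ^ 3000) {N : ℕ}
    (hN6 : N ≤ 12 * c.k + 12) : 4 * (pp c * H0 * N / c.b1) ≤ 1 / c.X ^ 5000 := by
  obtain ⟨hk, hX⟩ := num_k hN c
  obtain ⟨h1, -, -, h4, -, -, -, -, -, h10, h11, -⟩ := hN G c
  have hX0 : 0 < c.X := lt_of_lt_of_le one_pos hX
  have hp := pp_le hN c
  have hp0 : (0 : ℝ) ≤ pp c := Nat.cast_nonneg _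
  have hk1 : (100 : ℝ) ≤ c.k := by exact_mod_cast h4
  have hN' : (N : ℝ) ≤ 12 * c.k + 12 := by exact_mod_cast hN6
  have e1 : (pp c : ℝ) * N ≤ c.X := by
    calc (pp c : ℝ) * N ≤ (20 * c.k + 1) * (12 * c.k + 12) :=
          mul_le_mul hp hN' (Nat.cast_nonneg _) (by positivity)
      _ ≤ (10 ^ 6 * (c.k : ℝ)) ^ 2 := by nlinarith
      _ ≤ c.X := hk
  have e2 : (pp c : ℝ) * H0 * N ≤ c.X * (2 * c.X ^ 3000) := by
    calc (pp c : ℝ) * H0 * N = (pp c * N) * H0 := by ring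
      _ ≤ c.X * (2 * c.X ^ 3000) := mul_le_mul e1 hH h0 hX0.le
  rw [mul_div_assoc', div_le_div_iff₀ h10 (pow_pos hX0 _)]
  have e3 : 4 * (pp c * H0 * N) * c.X ^ 5000 ≤ 4 * (c.X * (2 * c.X ^ 3000)) * c.X ^ 5000 := by
    refine mul_le_mul_of_nonneg_right ?_ (pow_pos hX0 _).le
    linarith
  refine e3.trans ?_
  rw [one_mul]
  refine le_trans ?_ h11
  have h8 : (8 : ℝ) ≤ c.X := le_trans (by norm_num) h1
  calc 4 * (c.X * (2 * c.X ^ 3000)) * c.X ^ 5000 = 8 * c.X ^ 8001 := by ring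
    _ ≤ c.X * c.X ^ 8001 := mul_le_mul_of_nonneg_right h8 (pow_pos hX0 _).le
    _ = c.X ^ 8002 := by ring
    _ ≤ c.X ^ 50000 := pow_le_pow_right₀ hX (by norm_num)

end num

/-- Tail bound for a chain. -/
theorem Ch.tail (hK : KERF_S.{u}) (hQ : QQF_S.{u}) (hN : NUMF_S.{u}) (hM : MRG_S.{u})
    {c : Ctx G} {τ : Bool} {M : LM G Val a} {n : ℕ} {C : ℕ → Matrix G G ℝ} {sg : ℕ → ℕ}
    {co : ℕ → G → G → G × Val → ℝ} {pos ent : ℕ → ℕ} (h : Ch c τ M n C sg co pos ent)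
    (hinj : ∀ i i', i < n → i' < n → sg i = sg i' → i = i')
    (hP : PosH τ c.k n pos ent) (hn : n ≤ 12 * c.k + 12) (hH : M.H0 ≤ 2 * c.X ^ 3000)
    {δ : ℝ} (hδ : 1 / c.X ^ 5000 ≤ δ) (x y : G)
    (hF : TT C (AX sg co (fun _ _ => 1)) 0 n x y ≤ 2 * δ * c.q τ) :
    Pr M.law (fun ω => 10 * δ * c.q τ < TT C (AX sg co (xi M ω)) 0 n x y) ≤
      1 / (Fintype.card G : ℝ) ^ 20 := by
  obtain ⟨hk, hX⟩ := num_k hN c
  have hX0 : 0 < c.X := lt_of_lt_of_le one_pos hX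
  have hq : 0 < c.q τ := (hN G c).2.2.2.2.2.1 τ
  have hδ0 : 0 < δ := lt_of_lt_of_le (by positivity) hδ
  have hH0 : 0 ≤ M.H0 := le_trans zero_le_one M.hH0
  have hθ : (0 : ℝ) ≤ pp c * M.H0 := mul_nonneg (Nat.cast_nonneg _) hH0
  have hz := num_theta hN c hH0 hH hn
  have h1X : 1 / c.X ^ 5000 ≤ 1 := by
    rw [div_le_one (pow_pos hX0 _)]
    exact one_le_pow₀ hX
  have hsw := sw_sum hQ hN hM c hP hθ (by linarith)
  have h1 := seq_tail M h.C0 h.o0 h.sa hinj h.cs (E := fun i r => c.gs τ (pos i) (ent (i + r) - pos i))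
    (fun i r => gs_nonneg hQ c τ _ _)
    (fun i r x y hi => (h.win hK r i hi x y).trans ((hK G c τ).2.2.2.2.2.1 _ _ x y))
    (pp c) (10 * δ * c.q τ) (by positivity) x y _ hF
  refine h1.trans (exp_tail c ?_ ?_)
  · refine div_nonneg (add_nonneg (by positivity) ?_) (by positivity)
    exact Finset.sum_nonneg fun t _ => SW_nonneg (fun i r => gs_nonneg hQ c τ _ _) hθ _ _ _
  · rw [div_le_iff₀ (by positivity)]
    have h2 : 4 * (pp c * M.H0 * n / c.b1) * c.q τ ≤ δ * c.q τ :=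
      mul_le_mul_of_nonneg_right (hz.trans hδ) hq.le
    linarith

end Pool.Agent.Lib.MP_688fd0_co.TF.H58
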