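import Pool.Agent.Lib.MP_688fd0_co.TF.H58.SeqC
import Pool.Agent.Lib.MP_688fd0_co.TF.H17.Inst

/-!
# Theorem F: the loads as products of slot kernels, the chains of the instances
-/

namespace Pool.Agent.Lib.MP_688fd0_co.TF.H58

open Pool.Agent.Lib.MP_688fd0_co.TE

universe u v

section model

variable {V : Type u} {Val : Type v} [Fintype V] [Fintype Val] [DecidableEq V] {a : ℕ}

/-- Coefficients of a normal slot. -/
noncomputable def con (M : LM V Val a) (sg : ℕ → ℕ) (i : ℕ) (x y : V) (s : V × Val) : ℝ :=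
  M.kap (sg i) s.1 s.2 * ind (s.1 = x ∧ M.ex s.1 s.2 = y)

/-- Coefficients of a dangling slot. -/
noncomputable def cod (M : LM V Val a) (j : ℕ) (x y : V) (s : V × Val) : ℝ :=
  M.kap j s.1 s.2 * ind (x = y ∧ M.ex s.1 s.2 = x)

theorem con_nn (M : LM V Val a) (sg : ℕ → ℕ) (i : ℕ) (x y : V) (s : V × Val) :
    0 ≤ con M sg i x y s := mul_nonneg (M.hk0 _ _ _) (ind_nonneg _)

theorem cod_nn (M : LM V Val a) (j : ℕ) (x y : V) (s : V × Val) : 0 ≤ cod M j x y s :=
  mul_nonneg (M.hk0 _ _ _) (ind_nonneg _)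

theorem sum_ind_eq {f : V → ℝ} (x : V) : ∑ z, ind (x = z) * f z = f x := by
  rw [Finset.sum_eq_single x]
  · rw [ind_of rfl, one_mul]
  · intro z _ hz
    rw [ind_not (Ne.symm hz), zero_mul]
  · intro h; exact absurd (Finset.mem_univ _) h

theorem ind_and_mul (P Q : Prop) : ind (P ∧ Q) = ind P * ind Q := by
  by_cases hP : P <;> by_cases hQ : Q
  · rw [ind_of ⟨hP, hQ⟩, ind_of hP, ind_of hQ, one_mul]
  · rw [ind_not (fun h => hQ h.2), ind_not hQ, mul_zero]
  · rw [ind_not (fun h => hP h.1), ind_not hP, zero_mul]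
  · rw [ind_not (fun h => hP h.1), ind_not hP, zero_mul]

theorem con_sum (M : LM V Val a) (sg : ℕ → ℕ) (i : ℕ) (s : V × Val) :
    ∑ x, ∑ y, con M sg i x y s ≤ M.H0 * M.P s.1 s.2 := by
  have h : ∑ x, ∑ y, con M sg i x y s = M.kap (sg i) s.1 s.2 := by
    unfold con
    have h1 : ∀ x, ∑ y, M.kap (sg i) s.1 s.2 * ind (s.1 = x ∧ M.ex s.1 s.2 = y) =
        ind (s.1 = x) * M.kap (sg i) s.1 s.2 := by
      intro x
      have h2 : ∀ y, M.kap (sg i) s.1 s.2 * ind (s.1 = x ∧ M.ex s.1 s.2 = y) =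
          ind (M.ex s.1 s.2 = y) * (ind (s.1 = x) * M.kap (sg i) s.1 s.2) := by
        intro y; rw [ind_and_mul]; ring
      rw [Finset.sum_congr rfl fun y _ => h2 y,
        sum_ind_eq (f := fun _ => ind (s.1 = x) * M.kap (sg i) s.1 s.2)]
    rw [Finset.sum_congr rfl fun x _ => h1 x, sum_ind_eq (f := fun _ => M.kap (sg i) s.1 s.2)]
  rw [h]
  exact M.hkH _ _ _

theorem cod_sum (M : LM V Val a) (j : ℕ) (s : V × Val) :
    ∑ x, ∑ y, cod M j x y s ≤ M.H0 * M.P s.1 s.2 := by
  have h : ∑ x, ∑ y, cod M j x y s = M.kap j s.1 s.2 := by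
    unfold cod
    have h1 : ∀ x, ∑ y, M.kap j s.1 s.2 * ind (x = y ∧ M.ex s.1 s.2 = x) =
        ind (M.ex s.1 s.2 = x) * M.kap j s.1 s.2 := by
      intro x
      have h2 : ∀ y, M.kap j s.1 s.2 * ind (x = y ∧ M.ex s.1 s.2 = x) =
          ind (x = y) * (ind (M.ex s.1 s.2 = x) * M.kap j s.1 s.2) := by
        intro y; rw [ind_and_mul]; ring
      rw [Finset.sum_congr rfl fun y _ => h2 y,
        sum_ind_eq (f := fun _ => ind (M.ex s.1 s.2 = x) * M.kap j s.1 s.2)]
    rw [Finset.sum_congr rfl fun x _ => h1 x, sum_ind_eq (f := fun _ => M.kap j s.1 s.2)]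
  rw [h]
  exact M.hkH _ _ _

/-- A product with a labelled slot on the left. -/
theorem AX_mul (M : LM V Val a) (sg : ℕ → ℕ) (ω : Fld a V Val) (i : ℕ) (Q : Matrix V V ℝ)
    (x y : V) : (AX sg (con M sg) (xi M ω) i * Q) x y =
      ∑ e, M.lw ω (sg i) x e * Q (M.ex x e) y := by
  rw [Matrix.mul_apply]
  have h1 : ∀ z, AX sg (con M sg) (xi M ω) i x z * Q z y =
      ∑ s : V × Val, ind (s.1 = x) * (ind (M.ex s.1 s.2 = z) *
        (M.kap (sg i) s.1 s.2 * xi M ω (sg i) s * Q z y)) := by
    intro z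
    rw [AX_apply, Finset.sum_mul]
    refine Finset.sum_congr rfl fun s _ => ?_
    unfold con
    rw [ind_and_mul]; ring
  rw [Finset.sum_congr rfl fun z _ => h1 z, Finset.sum_comm]
  have h2 : ∀ s : V × Val, ∑ z, ind (s.1 = x) * (ind (M.ex s.1 s.2 = z) *
        (M.kap (sg i) s.1 s.2 * xi M ω (sg i) s * Q z y)) =
      ind (s.1 = x) * (M.kap (sg i) s.1 s.2 * xi M ω (sg i) s * Q (M.ex s.1 s.2) y) := by
    intro s
    rw [← Finset.mul_sum, sum_ind_eq (f := fun z => M.kap (sg i) s.1 s.2 * xi M ω (sg i) s * Q z y)]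
  rw [Finset.sum_congr rfl fun s _ => h2 s, Fintype.sum_prod_type, Finset.sum_eq_single x]
  · refine Finset.sum_congr rfl fun e _ => ?_
    simp only
    rw [ind_of trivial, one_mul]
    rfl
  · intro z _ hz
    refine Finset.sum_eq_zero fun e _ => ?_
    simp only
    rw [ind_not hz, zero_mul]
  · intro h; exact absurd (Finset.mem_univ _) h

/-- The unlabelled slot. -/
theorem AX_one (M : LM V Val a) (sg : ℕ → ℕ) (i : ℕ) (x y : V) :
    AX sg (con M sg) (fun _ _ => 1) i x y = ∑ e, M.kap (sg i) x e * ind (M.ex x e = y) := by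
  rw [AX_apply, Fintype.sum_prod_type, Finset.sum_eq_single x]
  · refine Finset.sum_congr rfl fun e _ => ?_
    unfold con
    rw [ind_and_mul]
    simp only
    rw [ind_of trivial]; ring
  · intro z _ hz
    refine Finset.sum_eq_zero fun e _ => ?_
    unfold con
    rw [ind_and_mul]
    simp only
    rw [ind_not hz]; ring
  · intro h; exact absurd (Finset.mem_univ _) h

theorem Fn_TT (M : LM V Val a) (ω : Fld a V Val) (j0 : ℕ) (B : Matrix V V ℝ) (x : V) :
    ∀ (n : ℕ) (u : V), M.Fn ω j0 (B x) n u =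
      TT (fun t => if t = 0 then B else Matrix.of (M.C (j0 + t)))
        (AX (fun t => j0 + t) (con M (fun t => j0 + t)) (xi M ω)) 0 n x u
  | 0, u => by
    rw [TT_zero, if_pos rfl]; rfl
  | n + 1, u => by
    have h1 := TT_add (fun t => if t = 0 then B else Matrix.of (M.C (j0 + t)))
      (AX (fun t => j0 + t) (con M (fun t => j0 + t)) (xi M ω)) n 0 0
    rw [add_zero, TT_zero, zero_add] at h1
    rw [h1, if_neg (by omega), Matrix.mul_assoc, Matrix.mul_apply]
    show ∑ u', ∑ e, M.Fn ω j0 (B x) n u' * M.lw ω (j0 + n) u' e *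
      M.C (j0 + n + 1) (M.ex u' e) u = _
    refine Finset.sum_congr rfl fun u' _ => ?_
    rw [AX_mul, Fn_TT M ω j0 B x n u', Finset.mul_sum]
    refine Finset.sum_congr rfl fun e _ => ?_
    rw [mul_assoc]
    rfl

theorem Gn_TT (M : LM V Val a) (ω : Fld a V Val) (B : Matrix V V ℝ) (x : V) :
    ∀ (n j0 : ℕ) (w : V), M.Gn ω (fun v => B v x) n j0 w =
      TT (fun t => if t = n then B else Matrix.of (M.C (j0 + t)))
        (AX (fun t => j0 + t) (con M (fun t => j0 + t)) (xi M ω)) 0 n w x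
  | 0, j0, w => by
    rw [TT_zero, if_pos rfl]; rfl
  | n + 1, j0, w => by
    rw [TT_succ, Matrix.mul_assoc, Matrix.mul_apply, if_neg (by omega)]
    show ∑ u, ∑ e, M.C j0 w u * M.lw ω j0 u e * M.Gn ω (fun v => B v x) n (j0 + 1) (M.ex u e) = _
    refine Finset.sum_congr rfl fun u _ => ?_
    rw [AX_mul, Finset.mul_sum]
    refine Finset.sum_congr rfl fun e _ => ?_
    rw [Gn_TT M ω B x n (j0 + 1) (M.ex u e), mul_assoc]
    have h1 : TT (fun t => if t = n then B else Matrix.of (M.C (j0 + 1 + t)))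
        (AX (fun t => j0 + 1 + t) (con M (fun t => j0 + 1 + t)) (xi M ω)) 0 n =
        TT (fun t => if t = n + 1 then B else Matrix.of (M.C (j0 + t)))
        (AX (fun t => j0 + t) (con M (fun t => j0 + t)) (xi M ω)) (0 + 1) n := by
      rw [← TT_shift 1 n 0]
      refine TT_congr n 0 (fun t _ _ => ?_) (fun t _ _ => ?_)
      · have e1 : j0 + (t + 1) = j0 + 1 + t := by omega
        simp only [Nat.add_right_cancel_iff, e1]
      · have e1 : j0 + (t + 1) = j0 + 1 + t := by omega
        ext p q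
        rw [AX_apply, AX_apply]
        unfold con
        simp only [e1]
    rw [h1]
    rfl

/-- The matrix of `SY`. -/
theorem SY_eq (M : LM V Val a) (jm : ℕ) (ω : Fld a V Val) (y u' : V)
    (sg : ℕ → ℕ) (co : ℕ → V → V → V × Val → ℝ) (i : ℕ) (hsg : sg i = jm) (hco : co i = cod M jm)
    (KT : Matrix V V ℝ) (hKT : ∀ v y, KT y v = M.kc jm v y) :
    M.SY jm ω y u' = (KT * AX sg co (xi M ω) i * Matrix.of (M.C (jm + 1))) y u' := by
  unfold LM.SY
  rw [Matrix.mul_apply]
  have h1 : ∀ z, (KT * AX sg co (xi M ω) i) y z * Matrix.of (M.C (jm + 1)) z u' =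
      ∑ s : V × Val, ind (M.ex s.1 s.2 = z) *
        (M.kap jm s.1 s.2 * xi M ω jm s * KT y z * M.C (jm + 1) z u') := by
    intro z
    rw [Matrix.mul_apply, Finset.sum_mul]
    have h2 : ∀ z', KT y z' * AX sg co (xi M ω) i z' z * Matrix.of (M.C (jm + 1)) z u' =
        ∑ s : V × Val, ind (M.ex s.1 s.2 = z') * (ind (z' = z) *
          (M.kap jm s.1 s.2 * xi M ω jm s * KT y z' * M.C (jm + 1) z u')) := by
      intro z'
      rw [AX_apply, Finset.mul_sum, Finset.sum_mul, hsg, hco]
      refine Finset.sum_congr rfl fun s _ => ?_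
      unfold cod
      rw [ind_and_mul, Matrix.of_apply]; ring
    rw [Finset.sum_congr rfl fun z' _ => h2 z', Finset.sum_comm]
    refine Finset.sum_congr rfl fun s _ => ?_
    rw [sum_ind_eq (f := fun z' => ind (z' = z) *
      (M.kap jm s.1 s.2 * xi M ω jm s * KT y z' * M.C (jm + 1) z u'))]
    by_cases h : M.ex s.1 s.2 = z
    · rw [h]
    · rw [ind_not h, zero_mul, zero_mul]
  rw [Finset.sum_congr rfl fun z _ => h1 z]
  conv_rhs => rw [Finset.sum_comm, Fintype.sum_prod_type]
  refine Finset.sum_congr rfl fun u _ => Finset.sum_congr rfl fun e _ => ?_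
  rw [sum_ind_eq (f := fun z => M.kap jm u e * xi M ω jm (u, e) * KT y z * M.C (jm + 1) z u'), hKT]
  rfl

end model

section inst

variable {G : Type u} [Group G] [Fintype G] [DecidableEq G] {c : Ctx G} {τ : Bool} {d : ℕ}
  {Val : Type v} [Fintype Val] {a : ℕ} {M : LM G Val a} {jm : ℕ}

/-- Normal slots from `j0` on, positions shifted by `3 L`. -/
theorem ch_basic (hK : KERF_S.{u}) (hI : c.Inst τ d M jm) (j0 n L : ℕ) (hn : j0 + n ≤ a) :
    Ch c τ M n (fun t => Matrix.of (M.C (j0 + t))) (fun t => j0 + t) (con M (fun t => j0 + t))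
      (fun t => 3 * L + d * (j0 + t)) (fun t => 3 * L + d * (j0 + t) + 1) where
  C0 := fun i x y => M.hC0 _ _ _
  o0 := fun i x y s => con_nn M _ _ _ _ _
  cs := fun i s _ => con_sum M _ _ _
  kC := by
    intro i _ x y
    have e : 3 * L + d * (j0 + i) + 1 - (3 * L + d * (j0 + i)) = 1 := by omega
    have e2 : 3 * L + d * (j0 + i) = d * (j0 + i) + 3 * L := by omega
    rw [e, e2, H17.K_period hK, (hK G c τ).2.2.2.2.2.2.2.2.2.2.2, ← hI.C]
    rfl
  kA := by
    intro i _ x y
    rw [AX_one, hI.kap]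
    have e : 3 * L + d * (j0 + (i + 1)) - (3 * L + d * (j0 + i) + 1) = d - 1 := by
      have : d * (j0 + (i + 1)) = d * (j0 + i) + d := by ring
      omega
    have e2 : 3 * L + d * (j0 + i) + 1 = d * (j0 + i) + 1 + 3 * L := by omega
    rw [e, e2, H17.K_period hK]
  lt := fun i _ => by show _ < _; omega
  le1 := by
    intro i _
    have : d * (j0 + (i + 1)) = d * (j0 + i) + d := by ring
    have h3 := hI.d1
    show 3 * L + d * (j0 + i) + 1 ≤ 3 * L + d * (j0 + (i + 1))
    omega
  le2 := by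
    intro i _
    have : d * (j0 + (i + 1)) = d * (j0 + i) + d := by ring
    have h3 := hI.d1
    show 3 * L + d * (j0 + (i + 1)) ≤ 3 * L + d * (j0 + i) + 1 + 1
    omega
  sa := fun i hi => by show j0 + i < a; omega

/-- Normal slots from `j0` to `jm`, the last kernel is the transpose of `kb`. -/
theorem ch_X1 (hK : KERF_S.{u}) (hI : c.Inst τ d M jm) (j0 n : ℕ) (hn : j0 + n = jm + 1) :
    Ch c τ M n (fun t => if t = n then Matrix.of (fun x y => M.kb jm y x) else
        Matrix.of (M.C (j0 + t))) (fun t => j0 + t) (con M (fun t => j0 + t))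
      (fun t => d * (j0 + t)) (fun t => if t = n then 6 * c.k + 6 else d * (j0 + t) + 1) := by
  have hb := ch_basic hK hI j0 n 0 (by have := H17.inst_jm hI; omega)
  have hmid := hI.mid
  refine ⟨?_, fun i x y s => con_nn M _ _ _ _ _, fun i s _ => con_sum M _ _ _, ?_, ?_, ?_, ?_, ?_,
    hb.sa⟩
  · intro i x y
    beta_reduce
    split
    · rw [Matrix.of_apply, H17.inst_kb hK hI]; exact K_nn hK c τ _ _ _ _
    · exact M.hC0 _ _ _
  · intro i hi x y
    rcases lt_or_eq_of_le hi with h | h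
    · have h1 := hb.kC i h.le x y
      beta_reduce at h1 ⊢
      rw [if_neg h.ne, if_neg h.ne]
      simpa using h1
    · subst h
      beta_reduce
      rw [if_pos rfl, if_pos rfl, Matrix.of_apply, H17.inst_kb hK hI, hn, hmid]
      have e : 6 * c.k + 6 - (3 * c.k + 3) = 3 * c.k + 3 := by omega
      rw [e]
      exact le_of_eq (H17.K_symm hK (by omega) y x)
  · intro i hi x y
    have h1 := hb.kA i hi x y
    beta_reduce at h1 ⊢
    rw [if_neg hi.ne]
    simpa using h1
  · intro i hi
    beta_reduce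
    split
    · rename_i h; subst h; rw [hn, hmid]; omega
    · omega
  · intro i hi
    have h1 := hb.le1 i hi
    beta_reduce at h1 ⊢
    rw [if_neg hi.ne]
    simpa using h1
  · intro i hi
    have h1 := hb.le2 i hi
    beta_reduce at h1 ⊢
    rw [if_neg hi.ne]
    simpa using h1

/-- The first kernel is the transpose of `kc`, the slot `jm` is dangling, then normal slots. -/
theorem ch_Y2 (hK : KERF_S.{u}) (hI : c.Inst τ d M jm) (n : ℕ) (hn : jm + n ≤ a) (hk : 1 ≤ c.k) :
    Ch c τ M n (fun t => if t = 0 then Matrix.of (fun x y => M.kc jm y x) else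
        Matrix.of (M.C (jm + t))) (fun t => jm + t)
      (fun t => if t = 0 then cod M jm else con M (fun t => jm + t) t)
      (fun t => if t = 0 then 6 * c.k + 3 else 6 * c.k + d * (jm + t))
      (fun t => if t = 0 then 9 * c.k + 3 else 6 * c.k + d * (jm + t) + 1) := by
  have hmid := hI.mid
  have h3 := hI.d1
  refine ⟨?_, ?_, ?_, ?_, ?_, ?_, ?_, ?_, fun i hi => by show jm + i < a; omega⟩
  · intro i x y
    beta_reduce
    split
    · rw [Matrix.of_apply, H17.inst_kc hI]; exact K_nn hK c τ _ _ _ _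
    · exact M.hC0 _ _ _
  · intro i x y s
    beta_reduce
    split
    · exact cod_nn _ _ _ _ _
    · exact con_nn _ _ _ _ _ _
  · intro i s _
    beta_reduce
    split
    · exact cod_sum _ _ _
    · exact con_sum _ _ _ _
  · intro i hi x y
    beta_reduce
    by_cases h : i = 0
    · subst h
      rw [if_pos rfl, if_pos rfl, if_pos rfl, Matrix.of_apply, H17.inst_kc hI]
      have e : 9 * c.k + 3 - (6 * c.k + 3) = 3 * c.k := by omega
      rw [e]
      exact le_of_eq (H17.K_symm hK (by omega) y x)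
    · rw [if_neg h, if_neg h, if_neg h]
      have e : 6 * c.k + d * (jm + i) + 1 - (6 * c.k + d * (jm + i)) = 1 := by omega
      have e2 : 6 * c.k + d * (jm + i) = d * (jm + i) + 3 * (2 * c.k) := by ring
      rw [e, e2, H17.K_period hK, (hK G c τ).2.2.2.2.2.2.2.2.2.2.2, ← hI.C]
      rfl
  · intro i hi x y
    by_cases h : i = 0
    · subst h
      have e1 : (if (0 : ℕ) + 1 = 0 then 6 * c.k + 3 else 6 * c.k + d * (jm + (0 + 1))) =
          9 * c.k + 3 := by
        rw [if_neg (by omega), zero_add, hmid]; ring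
      beta_reduce
      rw [e1, if_pos rfl, Nat.sub_self]
      have e2 : c.K τ (9 * c.k + 3) 0 = 1 := rfl
      rw [e2, AX_apply, if_pos rfl]
      have h4 := H17.inst_kx hK hI jm x
      by_cases hxy : x = y
      · subst hxy
        rw [Matrix.one_apply_eq]
        refine le_of_eq (Eq.trans ?_ h4)
        rw [Fintype.sum_prod_type]
        refine Finset.sum_congr rfl fun u _ => Finset.sum_congr rfl fun e _ => ?_
        unfold cod
        rw [ind_and_mul, ind_of (show x = x from rfl), one_mul, mul_one]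
      · rw [Matrix.one_apply_ne hxy]
        refine le_of_eq (Finset.sum_eq_zero fun s _ => ?_)
        unfold cod
        rw [ind_not (fun h => hxy h.1)]; ring
    · have e0 : AX (fun t => jm + t) (fun t => if t = 0 then cod M jm else
          con M (fun t => jm + t) t) (fun _ _ => 1) i x y =
          AX (fun t => jm + t) (con M (fun t => jm + t)) (fun _ _ => 1) i x y := by
        rw [AX_apply, AX_apply, if_neg h]
      rw [e0]
      beta_reduce
      rw [if_neg h, if_neg (by omega), AX_one, hI.kap]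
      have e3 : d * (jm + (i + 1)) = d * (jm + i) + d := by ring
      have e : 6 * c.k + d * (jm + (i + 1)) - (6 * c.k + d * (jm + i) + 1) = d - 1 := by omega
      have e2 : 6 * c.k + d * (jm + i) + 1 = d * (jm + i) + 1 + 3 * (2 * c.k) := by ring
      rw [e, e2, H17.K_period hK]
  · intro i hi
    beta_reduce
    split <;> omega
  · intro i hi
    beta_reduce
    have e3 : d * (jm + (i + 1)) = d * (jm + i) + d := by ring
    rw [if_neg (show ¬ i + 1 = 0 by omega)]
    by_cases h : i = 0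
    · subst h
      rw [if_pos rfl, zero_add, hmid]; omega
    · rw [if_neg h]; omega
  · intro i hi
    beta_reduce
    have e3 : d * (jm + (i + 1)) = d * (jm + i) + d := by ring
    rw [if_neg (show ¬ i + 1 = 0 by omega)]
    by_cases h : i = 0
    · subst h
      rw [if_pos rfl, zero_add, hmid]; omega
    · rw [if_neg h]; omega

end inst

end Pool.Agent.Lib.MP_688fd0_co.TF.H58
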